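import Pool.Agent.H37.PPD.MO

/-!
PPD EXG: exceptional set from second moments, abstract form.

For q with 2^(2^(8j)) ≤ q < 2^(2^(8(j+1))) (block j) call q exceptional (E) if j ≥ 2 and |F j q| > 1, F j m = ∑_{l∈I_j} χ l m / l.
 Dyadic N = 2^i, 2^(8j) ≤ i < 2^(8(j+1)): #{m ∈ [N,2N): |F j m| > 1} ≤ ∑_{m ≤ 2N} (F j m)² ≤ 2N ∑_{l ≥ z₀} 1/l² + 4 |I_j|²  (second_moment)
   ≤ 4N/z₀ + 4·2^(2·2^(7j)) ≤ 8N/z₀, z₀ = 2^(2^j), |I_j| ≤ 2^(2^(7j)), since 2·2^(7j) + 2^j ≤ 2^(8j) for j ≥ 2.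
 ∑_{q exceptional, N ≤ q < 2N} log q/q ≤ (8N/z₀) log(2N)/N, so block j contributes ≤ 2^(8(j+1)) · 2^(8(j+1)) · 8/2^(2^j); the sum over j converges.
-/

set_option autoImplicit false

namespace Pool.Agent.H37.PPD

open Finset Pool.Agent.H37.PPC

/-- the weight of a dyadic block -/
private noncomputable def EXG_g (i : ℕ) : ℝ := 8 * (i + 1) / (2 : ℝ) ^ (2 ^ (Nat.log 2 i / 8))

private theorem EXG_g_nonneg (i : ℕ) : 0 ≤ EXG_g i := by
  unfold EXG_g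
  positivity

private theorem EXG_arith (j : ℕ) (hj : 8 ≤ j) : 24 * (j + 1) ≤ 2 ^ j := by
  induction j, hj using Nat.le_induction with
  | base => norm_num
  | succ n hn ih =>
    rw [pow_succ]
    omega

private theorem EXG_g_le (i : ℕ) : EXG_g i ≤ 8 * (2 : ℝ) ^ 192 / ((i : ℝ) + 1) ^ 2 := by
  unfold EXG_g
  set j := Nat.log 2 i / 8 with hj
  have hi : i + 1 ≤ 2 ^ (8 * (j + 1)) := by
    have h1 : Nat.log 2 i < 8 * (j + 1) := by omega
    have h2 : i < 2 ^ (Nat.log 2 i).succ := Nat.lt_pow_succ_log_self (by norm_num) i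
    have h3 : 2 ^ (Nat.log 2 i).succ ≤ 2 ^ (8 * (j + 1)) :=
      Nat.pow_le_pow_right (by norm_num) h1
    omega
  have hiR : ((i : ℝ) + 1) ^ 3 ≤ (2 : ℝ) ^ (24 * (j + 1)) := by
    have h1 : (i + 1) ^ 3 ≤ (2 ^ (8 * (j + 1))) ^ 3 := Nat.pow_le_pow_left hi 3
    rw [← pow_mul, show 8 * (j + 1) * 3 = 24 * (j + 1) by ring] at h1
    exact_mod_cast h1
  have h0 : (0 : ℝ) < (i : ℝ) + 1 := by positivity
  rw [div_le_div_iff₀ (by positivity) (by positivity)]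
  have key : ((i : ℝ) + 1) ^ 3 ≤ (2 : ℝ) ^ 192 * (2 : ℝ) ^ (2 ^ j) := by
    rcases Nat.lt_or_ge j 8 with h | h
    · have h1 : (2 : ℝ) ^ (24 * (j + 1)) ≤ (2 : ℝ) ^ 192 :=
        pow_le_pow_right₀ (by norm_num) (by omega)
      have h2 : (1 : ℝ) ≤ (2 : ℝ) ^ (2 ^ j) := one_le_pow₀ (by norm_num)
      calc ((i : ℝ) + 1) ^ 3 ≤ (2 : ℝ) ^ 192 * 1 := by rw [mul_one]; exact hiR.trans h1
        _ ≤ _ := mul_le_mul_of_nonneg_left h2 (by positivity)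
    · have h1 : (2 : ℝ) ^ (24 * (j + 1)) ≤ (2 : ℝ) ^ (2 ^ j) :=
        pow_le_pow_right₀ (by norm_num) (EXG_arith j h)
      have h2 : (1 : ℝ) ≤ (2 : ℝ) ^ 192 := one_le_pow₀ (by norm_num)
      calc ((i : ℝ) + 1) ^ 3 ≤ 1 * (2 : ℝ) ^ (2 ^ j) := by rw [one_mul]; exact hiR.trans h1
        _ ≤ _ := mul_le_mul_of_nonneg_right h2 (by positivity)
  calc 8 * ((i : ℝ) + 1) * ((i : ℝ) + 1) ^ 2 = 8 * ((i : ℝ) + 1) ^ 3 := by ring
    _ ≤ 8 * ((2 : ℝ) ^ 192 * (2 : ℝ) ^ (2 ^ j)) := by linarith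
    _ = 8 * (2 : ℝ) ^ 192 * (2 : ℝ) ^ (2 ^ j) := by ring

private theorem EXG_summable : Summable EXG_g := by
  refine Summable.of_nonneg_of_le EXG_g_nonneg EXG_g_le ?_
  have h1 : Summable fun n : ℕ => 1 / ((n : ℝ) + 1) ^ 2 := by
    have h2 := (summable_nat_add_iff (f := fun n : ℕ => 1 / (n : ℝ) ^ 2) 1).2
      (Real.summable_one_div_nat_pow.2 (by norm_num))
    refine h2.congr (fun n => ?_)
    push_cast
    rfl
  refine (h1.mul_left (8 * (2 : ℝ) ^ 192)).congr (fun n => ?_)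
  rw [mul_one_div]

open Classical in
private theorem EXG_count (I : ℕ → Finset ℕ) (χ : ℕ → ℕ → ℝ)
    (hI : ∀ j, I j ⊆ pr (2 ^ (2 ^ j)) (2 ^ (2 ^ (7 * j))))
    (h1 : ∀ j, ∀ l ∈ I j, ∀ m, |χ l m| ≤ 1)
    (h2 : ∀ j, ∀ l ∈ I j, ∀ l' ∈ I j, l ≠ l' → ∀ N : ℕ,
      |∑ m ∈ Icc 1 N, χ l m * χ l' m| ≤ 4 * l * l')
    (i j : ℕ) (hj : 2 ≤ j) (hij : 2 ^ (8 * j) ≤ i) :
    (((Ico (2 ^ i) (2 ^ (i + 1))).filter (fun m => 1 < |∑ l ∈ I j, χ l m / l|)).card : ℝ) ≤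
      8 * (2 : ℝ) ^ i / (2 : ℝ) ^ (2 ^ j) := by
  have hz0 : 0 < 2 ^ (2 ^ j) := by positivity
  have hmem : ∀ l ∈ I j, 2 ^ (2 ^ j) ≤ l ∧ l < 2 ^ (2 ^ (7 * j)) := by
    intro l hl
    exact (mem_pr.1 (hI j hl)).1
  have hsec := second_moment (I j) χ (2 ^ (i + 1)) (fun l hl => by
    have := (hmem l hl).1
    omega) (h1 j) (fun l hl l' hl' hne => h2 j l hl l' hl' hne _)
  have hcard : (((Ico (2 ^ i) (2 ^ (i + 1))).filter
      (fun m => 1 < |∑ l ∈ I j, χ l m / l|)).card : ℝ) ≤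
      ∑ m ∈ Icc 1 (2 ^ (i + 1)), (∑ l ∈ I j, χ l m / l) ^ 2 := by
    rw [Finset.card_eq_sum_ones, Nat.cast_sum]
    calc ∑ m ∈ (Ico (2 ^ i) (2 ^ (i + 1))).filter (fun m => 1 < |∑ l ∈ I j, χ l m / l|),
          ((1 : ℕ) : ℝ)
        ≤ ∑ m ∈ (Ico (2 ^ i) (2 ^ (i + 1))).filter (fun m => 1 < |∑ l ∈ I j, χ l m / l|),
          (∑ l ∈ I j, χ l m / l) ^ 2 := by
          apply Finset.sum_le_sum
          intro m hm
          have h3 := (Finset.mem_filter.1 hm).2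
          rw [← sq_abs]
          push_cast
          nlinarith
      _ ≤ ∑ m ∈ Icc 1 (2 ^ (i + 1)), (∑ l ∈ I j, χ l m / l) ^ 2 := by
          apply Finset.sum_le_sum_of_subset_of_nonneg
          · intro m hm
            have h3 := Finset.mem_Ico.1 (Finset.mem_filter.1 hm).1
            have h4 : 0 < 2 ^ i := by positivity
            rw [Finset.mem_Icc]
            omega
          · intro m _ _
            positivity
  have hsq : ∑ l ∈ I j, (1 : ℝ) / (l : ℝ) ^ 2 ≤ 2 / (2 : ℝ) ^ (2 ^ j) := by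
    have h3 : I j ⊆ Ioo (2 ^ (2 ^ j) - 1) (2 ^ (2 ^ (7 * j))) := by
      intro l hl
      have h4 := hmem l hl
      rw [Finset.mem_Ioo]
      omega
    calc ∑ l ∈ I j, (1 : ℝ) / (l : ℝ) ^ 2
        ≤ ∑ l ∈ (Ioo (2 ^ (2 ^ j) - 1) (2 ^ (2 ^ (7 * j))) : Finset ℕ), (1 : ℝ) / (l : ℝ) ^ 2 :=
          Finset.sum_le_sum_of_subset_of_nonneg h3 (fun l _ _ => by positivity)
      _ = ∑ l ∈ (Ioo (2 ^ (2 ^ j) - 1) (2 ^ (2 ^ (7 * j))) : Finset ℕ), ((l : ℝ) ^ 2)⁻¹ := by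
          apply Finset.sum_congr rfl
          intro l _
          rw [one_div]
      _ ≤ 2 / (((2 ^ (2 ^ j) - 1 : ℕ) : ℝ) + 1) := sum_Ioo_inv_sq_le _ _
      _ = 2 / (2 : ℝ) ^ (2 ^ j) := by
          congr 1
          have h4 : ((2 ^ (2 ^ j) - 1 : ℕ) : ℝ) + 1 = (((2 ^ (2 ^ j) - 1 + 1 : ℕ)) : ℝ) := by
            push_cast
            ring
          rw [h4, Nat.sub_add_cancel hz0]
          push_cast
          rfl
  have hIc : ((I j).card : ℝ) ≤ (2 : ℝ) ^ (2 ^ (7 * j)) := by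
    have h3 : (I j).card ≤ (range (2 ^ (2 ^ (7 * j)))).card := by
      apply Finset.card_le_card
      intro l hl
      rw [Finset.mem_range]
      exact (hmem l hl).2
    rw [Finset.card_range] at h3
    exact_mod_cast h3
  have hexp : 2 * 2 ^ (7 * j) + 2 ^ j ≤ i := by
    have h3 : 2 ^ (8 * j) = 2 ^ j * 2 ^ (7 * j) := by
      rw [← pow_add]
      congr 1
      ring
    have h4 : 2 ^ j ≤ 2 ^ (7 * j) := Nat.pow_le_pow_right (by norm_num) (by omega)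
    have h5 : 4 ≤ 2 ^ j := by
      calc 4 = 2 ^ 2 := by norm_num
        _ ≤ 2 ^ j := Nat.pow_le_pow_right (by norm_num) hj
    have h6 : 4 * 2 ^ (7 * j) ≤ 2 ^ j * 2 ^ (7 * j) := Nat.mul_le_mul_right _ h5
    omega
  have hI2 : 4 * ((I j).card : ℝ) ^ 2 ≤ 4 * (2 : ℝ) ^ i / (2 : ℝ) ^ (2 ^ j) := by
    rw [le_div_iff₀ (by positivity)]
    have h3 : ((I j).card : ℝ) ^ 2 ≤ ((2 : ℝ) ^ (2 ^ (7 * j))) ^ 2 :=
      pow_le_pow_left₀ (by positivity) hIc 2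
    have h4 : ((2 : ℝ) ^ (2 ^ (7 * j))) ^ 2 * (2 : ℝ) ^ (2 ^ j) ≤ (2 : ℝ) ^ i := by
      rw [← pow_mul, ← pow_add]
      apply pow_le_pow_right₀ (by norm_num)
      omega
    have h5 : ((I j).card : ℝ) ^ 2 * (2 : ℝ) ^ (2 ^ j) ≤ (2 : ℝ) ^ i :=
      (mul_le_mul_of_nonneg_right h3 (by positivity)).trans h4
    linarith
  have hfirst : ((2 ^ (i + 1) : ℕ) : ℝ) * ∑ l ∈ I j, (1 : ℝ) / (l : ℝ) ^ 2 ≤
      4 * (2 : ℝ) ^ i / (2 : ℝ) ^ (2 ^ j) := by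
    calc ((2 ^ (i + 1) : ℕ) : ℝ) * ∑ l ∈ I j, (1 : ℝ) / (l : ℝ) ^ 2
        ≤ ((2 ^ (i + 1) : ℕ) : ℝ) * (2 / (2 : ℝ) ^ (2 ^ j)) :=
          mul_le_mul_of_nonneg_left hsq (by positivity)
      _ = 4 * (2 : ℝ) ^ i / (2 : ℝ) ^ (2 ^ j) := by
          push_cast
          rw [pow_succ]
          ring
  calc _ ≤ ∑ m ∈ Icc 1 (2 ^ (i + 1)), (∑ l ∈ I j, χ l m / l) ^ 2 := hcard
    _ ≤ _ := hsec
    _ ≤ 4 * (2 : ℝ) ^ i / (2 : ℝ) ^ (2 ^ j) + 4 * (2 : ℝ) ^ i / (2 : ℝ) ^ (2 ^ j) :=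
        add_le_add hfirst hI2
    _ = 8 * (2 : ℝ) ^ i / (2 : ℝ) ^ (2 ^ j) := by ring

open Classical in
theorem exceptional_gen (I : ℕ → Finset ℕ) (χ : ℕ → ℕ → ℝ)
    (hI : ∀ j, I j ⊆ pr (2 ^ (2 ^ j)) (2 ^ (2 ^ (7 * j))))
    (h1 : ∀ j, ∀ l ∈ I j, ∀ m, |χ l m| ≤ 1)
    (h2 : ∀ j, ∀ l ∈ I j, ∀ l' ∈ I j, l ≠ l' → ∀ N : ℕ,
      |∑ m ∈ Icc 1 N, χ l m * χ l' m| ≤ 4 * l * l') :
    ∃ (E : Set ℕ) (C : ℝ), 0 < C ∧
      (∀ w : ℕ, ∑ q ∈ (pr 2 w).filter (fun q => q ∈ E), Real.log q / q ≤ C) ∧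
      ∀ j q : ℕ, 2 ≤ j → 2 ^ (2 ^ (8 * j)) ≤ q → q < 2 ^ (2 ^ (8 * (j + 1))) → q ∉ E →
        |∑ l ∈ I j, χ l q / l| ≤ 1 := by
  refine ⟨{q | ∃ j, 2 ≤ j ∧ 2 ^ (2 ^ (8 * j)) ≤ q ∧ q < 2 ^ (2 ^ (8 * (j + 1))) ∧
    1 < |∑ l ∈ I j, χ l q / l|}, (∑' i, EXG_g i) + 1, ?_, ?_, ?_⟩
  · have h3 : 0 ≤ ∑' i, EXG_g i := tsum_nonneg EXG_g_nonneg
    linarith
  · intro w
    set E : Set ℕ := {q | ∃ j, 2 ≤ j ∧ 2 ^ (2 ^ (8 * j)) ≤ q ∧ q < 2 ^ (2 ^ (8 * (j + 1))) ∧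
      1 < |∑ l ∈ I j, χ l q / l|} with hE
    have hmaps : ∀ q ∈ (pr 2 w).filter (fun q => q ∈ E), Nat.log 2 q ∈ range w := by
      intro q hq
      have h3 := (mem_pr.1 (Finset.mem_filter.1 hq).1).1
      rw [Finset.mem_range]
      exact lt_of_le_of_lt (Nat.log_le_self 2 q) h3.2
    rw [← Finset.sum_fiberwise_of_maps_to hmaps]
    have hinner : ∀ i ∈ range w,
        ∑ q ∈ ((pr 2 w).filter (fun q => q ∈ E)).filter (fun q => Nat.log 2 q = i),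
          Real.log q / q ≤ EXG_g i := by
      intro i _
      set j := Nat.log 2 i / 8 with hjdef
      have hsub : ∀ q ∈ ((pr 2 w).filter (fun q => q ∈ E)).filter (fun q => Nat.log 2 q = i),
          2 ≤ j ∧ 2 ^ (8 * j) ≤ i ∧
          q ∈ (Ico (2 ^ i) (2 ^ (i + 1))).filter (fun m => 1 < |∑ l ∈ I j, χ l m / l|) := by
        intro q hq
        rw [Finset.mem_filter, Finset.mem_filter, mem_pr] at hq
        obtain ⟨⟨⟨⟨hq2, _⟩, _⟩, hqE⟩, hlog⟩ := hq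
        obtain ⟨j', hj', ha, hb, hc⟩ := hqE
        have hq0 : q ≠ 0 := by omega
        have e1 : 2 ^ (8 * j') ≤ i := by
          rw [← hlog]
          exact Nat.le_log_of_pow_le (by norm_num) ha
        have e2 : i < 2 ^ (8 * (j' + 1)) := by
          rw [← hlog]
          exact Nat.log_lt_of_lt_pow hq0 hb
        have hi0 : i ≠ 0 := by
          have : 0 < 2 ^ (8 * j') := by positivity
          omega
        have e3 : 8 * j' ≤ Nat.log 2 i := Nat.le_log_of_pow_le (by norm_num) e1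
        have e4 : Nat.log 2 i < 8 * (j' + 1) := Nat.log_lt_of_lt_pow hi0 e2
        have e5 : j = j' := by omega
        rw [e5]
        refine ⟨hj', e1, ?_⟩
        rw [Finset.mem_filter, Finset.mem_Ico]
        refine ⟨⟨?_, ?_⟩, hc⟩
        · rw [← hlog]
          exact Nat.pow_log_le_self 2 hq0
        · rw [← hlog]
          exact Nat.lt_pow_succ_log_self (by norm_num) q
      rcases Finset.eq_empty_or_nonempty
        (((pr 2 w).filter (fun q => q ∈ E)).filter (fun q => Nat.log 2 q = i)) with hem | hne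
      · rw [hem, Finset.sum_empty]
        exact EXG_g_nonneg i
      · obtain ⟨q0, hq0⟩ := hne
        obtain ⟨hj2, hji, _⟩ := hsub q0 hq0
        have hcount := EXG_count I χ hI h1 h2 i j hj2 hji
        have hterm : ∀ q ∈ ((pr 2 w).filter (fun q => q ∈ E)).filter (fun q => Nat.log 2 q = i),
            Real.log q / q ≤ ((i : ℝ) + 1) / (2 : ℝ) ^ i := by
          intro q hq
          obtain ⟨_, _, h3⟩ := hsub q hq
          rw [Finset.mem_filter, Finset.mem_Ico] at h3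
          have h4 : (2 : ℝ) ^ i ≤ q := by exact_mod_cast h3.1.1
          have h5 : (q : ℝ) ≤ (2 : ℝ) ^ (i + 1) := by exact_mod_cast h3.1.2.le
          have h6 : (0 : ℝ) < (2 : ℝ) ^ i := by positivity
          have h7 : (0 : ℝ) < q := by linarith
          have h8 : Real.log q ≤ (i : ℝ) + 1 := by
            calc Real.log q ≤ Real.log ((2 : ℝ) ^ (i + 1)) := Real.log_le_log h7 h5
              _ = ((i + 1 : ℕ) : ℝ) * Real.log 2 := Real.log_pow _ _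
              _ ≤ ((i + 1 : ℕ) : ℝ) * 1 := by
                  apply mul_le_mul_of_nonneg_left _ (by positivity)
                  have := Real.log_two_lt_d9
                  linarith
              _ = (i : ℝ) + 1 := by push_cast; ring
          rw [div_le_div_iff₀ h7 h6]
          calc Real.log q * (2 : ℝ) ^ i ≤ ((i : ℝ) + 1) * (2 : ℝ) ^ i :=
                mul_le_mul_of_nonneg_right h8 h6.le
            _ ≤ ((i : ℝ) + 1) * q := mul_le_mul_of_nonneg_left h4 (by positivity)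
        have hcard2 : ((((pr 2 w).filter (fun q => q ∈ E)).filter
            (fun q => Nat.log 2 q = i)).card : ℝ) ≤ 8 * (2 : ℝ) ^ i / (2 : ℝ) ^ (2 ^ j) := by
          refine le_trans ?_ hcount
          exact_mod_cast Finset.card_le_card (fun q hq => (hsub q hq).2.2)
        calc ∑ q ∈ ((pr 2 w).filter (fun q => q ∈ E)).filter (fun q => Nat.log 2 q = i),
              Real.log q / q
            ≤ ∑ _q ∈ ((pr 2 w).filter (fun q => q ∈ E)).filter (fun q => Nat.log 2 q = i),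
              ((i : ℝ) + 1) / (2 : ℝ) ^ i := Finset.sum_le_sum hterm
          _ = ((((pr 2 w).filter (fun q => q ∈ E)).filter
              (fun q => Nat.log 2 q = i)).card : ℝ) * (((i : ℝ) + 1) / (2 : ℝ) ^ i) := by
              rw [Finset.sum_const, nsmul_eq_mul]
          _ ≤ (8 * (2 : ℝ) ^ i / (2 : ℝ) ^ (2 ^ j)) * (((i : ℝ) + 1) / (2 : ℝ) ^ i) :=
              mul_le_mul_of_nonneg_right hcard2 (by positivity)
          _ = EXG_g i := by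
              unfold EXG_g
              rw [← hjdef]
              have h6 : (2 : ℝ) ^ i ≠ 0 := by positivity
              have h7 : (2 : ℝ) ^ (2 ^ j) ≠ 0 := by positivity
              field_simp
    have hfin : ∑ i ∈ range w, EXG_g i ≤ ∑' i, EXG_g i :=
      EXG_summable.sum_le_tsum _ (fun i _ => EXG_g_nonneg i)
    have h9 := Finset.sum_le_sum hinner
    linarith
  · intro j q hj hq1 hq2 hqE
    by_contra hcon
    push Not at hcon
    exact hqE ⟨j, hj, hq1, hq2, hcon⟩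

end Pool.Agent.H37.PPD
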