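import Pool.Agent.H37.PPD.RS
import Pool.Agent.H37.PPD.EXG

/-!
PPD EX: exceptional primes.

Apply exceptional_gen (block j: 2^(2^(8j)) ≤ q < 2^(2^(8(j+1)))).
`exceptional0`: I_j = all primes of [2^(2^j), 2^(2^(7j))), χ l m = psi l m (psi_prod).  For q (odd prime) in block j not exceptional:
   J(l|q) = psi l q = ±1 for l∈I_j (l < q), ∑_{l∈I_j, J=-1} 1/l = (1/2)(rs I_j - F j q) ≥ (1/2)(6 j log 2 - C - 1) (mertens_two),
   and ll q ≤ 8(j+1) log 2.  For j < 2 ll q is bounded: enlarge C.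
`exceptional1`: I_j = the primes l ≡ 1 mod 3 of that range, χ l m = J(m|l) (jac_prod; l ≥ 7);
   2 ∑_{l∈I_j, J(p|l) = -1} 1/l = rs I_j - F j p ≥ (1/2) 6 j log 2 - C - 1 (sum_mod3).  For p < 3 or j < 2 enlarge C.
-/

set_option autoImplicit false

namespace Pool.Agent.H37.PPD

open Finset Pool.Agent.H37.PPC

private theorem EX_ll (k : ℕ) : ll (2 ^ (2 ^ k)) = k * Real.log 2 + Real.log (Real.log 2) := by
  unfold ll
  have h2 : 0 < Real.log 2 := Real.log_pos (by norm_num)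
  push_cast
  rw [Real.log_pow]
  push_cast
  rw [Real.log_mul (by positivity) h2.ne', Real.log_pow]

private theorem EX_ll_mono {a b : ℕ} (ha : 2 ≤ a) (hab : a ≤ b) : ll a ≤ ll b := by
  unfold ll
  have h1 : (1 : ℝ) < a := by exact_mod_cast ha
  refine Real.log_le_log (Real.log_pos h1) (Real.log_le_log (by linarith) ?_)
  exact_mod_cast hab

private theorem EX_loglog2 : Real.log (Real.log 2) ≤ 0 := by
  refine Real.log_nonpos (Real.log_nonneg (by norm_num)) ?_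
  linarith [Real.log_two_lt_d9]

private theorem EX_block {q : ℕ} (hq : 2 ^ (2 ^ 16) ≤ q) :
    ∃ j : ℕ, 2 ≤ j ∧ 2 ^ (2 ^ (8 * j)) ≤ q ∧ q < 2 ^ (2 ^ (8 * (j + 1))) := by
  have hq0 : q ≠ 0 := by
    have : 0 < 2 ^ (2 ^ 16) := by positivity
    omega
  have h1 : 2 ^ 16 ≤ Nat.log 2 q := Nat.le_log_of_pow_le (by norm_num) hq
  have hl0 : Nat.log 2 q ≠ 0 := by
    have : 0 < 2 ^ 16 := by positivity
    omega
  have h2 : 16 ≤ Nat.log 2 (Nat.log 2 q) := Nat.le_log_of_pow_le (by norm_num) h1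
  refine ⟨Nat.log 2 (Nat.log 2 q) / 8, by omega, ?_, ?_⟩
  · have h3 : 2 ^ (8 * (Nat.log 2 (Nat.log 2 q) / 8)) ≤ Nat.log 2 q :=
      (Nat.pow_le_pow_right (by norm_num) (by omega)).trans (Nat.pow_log_le_self 2 hl0)
    exact (Nat.pow_le_pow_right (by norm_num) h3).trans (Nat.pow_log_le_self 2 hq0)
  · have h3 : Nat.log 2 q + 1 ≤ 2 ^ (8 * (Nat.log 2 (Nat.log 2 q) / 8 + 1)) :=
      (Nat.lt_pow_succ_log_self (by norm_num) _).trans_le
        (Nat.pow_le_pow_right (by norm_num) (by omega))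
    exact (Nat.lt_pow_succ_log_self (by norm_num) q).trans_le
      (Nat.pow_le_pow_right (by norm_num) h3)

private theorem EX_small {q : ℕ} (h2 : 2 ≤ q) (hq : q < 2 ^ (2 ^ 16)) : (3 / 8) * ll q ≤ 5 := by
  have h1 := EX_ll_mono h2 hq.le
  rw [EX_ll] at h1
  have h3 := EX_loglog2
  have h4 := Real.log_two_lt_d9
  push_cast at h1
  linarith

private theorem EX_up {q j : ℕ} (h2 : 2 ≤ q) (hq : q < 2 ^ (2 ^ (8 * (j + 1)))) :
    (3 / 8) * ll q ≤ 3 * j * Real.log 2 + 3 := by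
  have h1 := EX_ll_mono h2 hq.le
  rw [EX_ll] at h1
  have h3 := EX_loglog2
  have h4 := Real.log_two_lt_d9
  push_cast at h1
  nlinarith

private theorem EX_pm {a : ℤ} {b : ℕ} (h : Int.gcd a b = 1) :
    (jacobiSym a b : ℝ) = 1 ∨ (jacobiSym a b : ℝ) = -1 := by
  rcases jacobiSym.eq_one_or_neg_one h with h | h
  · left
    rw [h]
    norm_num
  · right
    rw [h]
    norm_num

private theorem EX_split (I : Finset ℕ) (χ : ℕ → ℝ) (hχ : ∀ l ∈ I, χ l = 1 ∨ χ l = -1) :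
    2 * rs (I.filter (fun l => χ l = -1)) = rs I - ∑ l ∈ I, χ l / l := by
  unfold rs
  rw [sum_filter, mul_sum, ← sum_sub_distrib]
  refine sum_congr rfl fun l hl => ?_
  rcases hχ l hl with h | h
  · rw [if_neg (by rw [h]; norm_num), h]
    ring
  · rw [if_pos h, h]
    ring

private theorem EX_rs_mono {A B : Finset ℕ} (h : A ⊆ B) : rs A ≤ rs B :=
  sum_le_sum_of_subset_of_nonneg h fun l _ _ => by positivity

private theorem EX_rs_nonneg (A : Finset ℕ) : 0 ≤ rs A :=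
  sum_nonneg fun l _ => by positivity

private theorem EX_two_le (j : ℕ) : 2 ≤ 2 ^ (2 ^ j) := by
  have h1 : 1 ≤ 2 ^ j := Nat.one_le_two_pow
  calc 2 = 2 ^ 1 := rfl
    _ ≤ 2 ^ (2 ^ j) := Nat.pow_le_pow_right (by norm_num) h1

private theorem EX_jle (j : ℕ) : 2 ^ (2 ^ j) ≤ 2 ^ (2 ^ (7 * j)) :=
  Nat.pow_le_pow_right (by norm_num) (Nat.pow_le_pow_right (by norm_num) (by omega))

private theorem EX_lt {j l q : ℕ} (hl : l ∈ pr (2 ^ (2 ^ j)) (2 ^ (2 ^ (7 * j))))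
    (hq : 2 ^ (2 ^ (8 * j)) ≤ q) : l < q := by
  have h1 := (mem_pr.1 hl).1.2
  have h2 : 2 ^ (2 ^ (7 * j)) ≤ 2 ^ (2 ^ (8 * j)) :=
    Nat.pow_le_pow_right (by norm_num) (Nat.pow_le_pow_right (by norm_num) (by omega))
  omega

open Classical in
theorem exceptional0 : ∃ (E : Set ℕ) (C : ℝ), 0 < C ∧
    (∀ w : ℕ, ∑ q ∈ (pr 2 w).filter (fun q => q ∈ E), Real.log q / q ≤ C) ∧
    ∀ q : ℕ, q.Prime → 2 < q → q ∉ E → (3 / 8) * ll q - C ≤ rs (A0 {q} 2 q) := by
  obtain ⟨E, C, hC, hE, h⟩ := exceptional_gen (fun j => pr (2 ^ (2 ^ j)) (2 ^ (2 ^ (7 * j))))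
    (fun l m => psi (l : ℤ) m) (fun j => Subset.refl _)
    (by
      intro j l _ m
      unfold psi
      split_ifs
      · rcases jacobiSym.trichotomy (l : ℤ) m with h | h | h <;> rw [h] <;> norm_num
      · norm_num)
    (fun j l hl l' hl' hne N => psi_prod l l' N (mem_pr.1 hl).2 (mem_pr.1 hl').2 hne)
  obtain ⟨C1, hC1, hM⟩ := mertens_two
  refine ⟨E, C + C1 + 5, by positivity, fun w => (hE w).trans (by linarith), ?_⟩
  intro q hq hq2 hqE
  rcases lt_or_ge q (2 ^ (2 ^ 16)) with hs | hs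
  · have h1 := EX_small (by omega : 2 ≤ q) hs
    linarith [EX_rs_nonneg (A0 {q} 2 q)]
  · obtain ⟨j, hj, hj1, hj2⟩ := EX_block hs
    have h1 := h j q hj hj1 hj2 hqE
    have hodd : Odd q := hq.odd_of_ne_two (by omega)
    have hup := EX_up (by omega : 2 ≤ q) hj2
    set I := pr (2 ^ (2 ^ j)) (2 ^ (2 ^ (7 * j))) with hI
    have hsplit := EX_split I (fun l => psi (l : ℤ) q) (by
      intro l hl
      have hlq : l < q := EX_lt hl hj1
      simp only [psi, if_pos hodd]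
      refine EX_pm ?_
      rw [Int.gcd_natCast_natCast]
      exact (Nat.coprime_primes (mem_pr.1 hl).2 hq).2 (by omega))
    have hmer := hM (2 ^ (2 ^ j)) (2 ^ (2 ^ (7 * j))) (EX_two_le j) (EX_jle j)
    have hmer' : |rs I - (ll (2 ^ (2 ^ (7 * j))) - ll (2 ^ (2 ^ j)))| ≤ C1 := hmer
    rw [EX_ll, EX_ll] at hmer'
    push_cast at hmer'
    have hsub : I.filter (fun l : ℕ => psi (l : ℤ) q = -1) ⊆ A0 {q} 2 q := by
      intro l hl
      rw [mem_filter] at hl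
      unfold A0
      rw [mem_filter]
      have hlq : l < q := EX_lt hl.1 hj1
      refine ⟨mem_pr.2 ⟨⟨(mem_pr.1 hl.1).2.two_le, hlq⟩, (mem_pr.1 hl.1).2⟩, q,
        mem_singleton_self q, ?_⟩
      have h3 := hl.2
      simp only [psi, if_pos hodd] at h3
      exact_mod_cast h3
    have hle := EX_rs_mono hsub
    rw [abs_le] at h1 hmer'
    nlinarith [h1.1, h1.2, hmer'.1, hmer'.2]

open Classical in
theorem exceptional1 : ∃ (E : Set ℕ) (C : ℝ), 0 < C ∧
    (∀ w : ℕ, ∑ q ∈ (pr 2 w).filter (fun q => q ∈ E), Real.log q / q ≤ C) ∧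
    ∀ p : ℕ, p.Prime → p ∉ E → (3 / 8) * ll p - C ≤ 2 * rs (A1 {p} 2 p) := by
  have h3 : ∀ j l : ℕ, l ∈ (pr (2 ^ (2 ^ j)) (2 ^ (2 ^ (7 * j)))).filter (fun l => l % 3 = 1) →
      l.Prime ∧ 2 < l := by
    intro j l hl
    rw [mem_filter] at hl
    have h4 := (mem_pr.1 hl.1).2
    have h5 := h4.two_le
    refine ⟨h4, ?_⟩
    have h6 := hl.2
    omega
  obtain ⟨E, C, hC, hE, h⟩ := exceptional_gen
    (fun j => (pr (2 ^ (2 ^ j)) (2 ^ (2 ^ (7 * j)))).filter (fun l => l % 3 = 1))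
    (fun l m => (jacobiSym (m : ℤ) l : ℝ)) (fun j => filter_subset _ _)
    (by
      intro j l _ m
      rcases jacobiSym.trichotomy (m : ℤ) l with h | h | h <;> rw [h] <;> norm_num)
    (fun j l hl l' hl' hne N => jac_prod l l' N (h3 j l hl).1 (h3 j l' hl').1 hne
      (h3 j l hl).2 (h3 j l' hl').2)
  obtain ⟨C1, hC1, hM⟩ := sum_mod3
  refine ⟨E, C + C1 + 5, by positivity, fun w => (hE w).trans (by linarith), ?_⟩
  intro p hp hpE
  rcases lt_or_ge p (2 ^ (2 ^ 16)) with hs | hs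
  · have h1 := EX_small hp.two_le hs
    linarith [EX_rs_nonneg (A1 {p} 2 p)]
  · obtain ⟨j, hj, hj1, hj2⟩ := EX_block hs
    have h1 := h j p hj hj1 hj2 hpE
    have hup := EX_up hp.two_le hj2
    set I := (pr (2 ^ (2 ^ j)) (2 ^ (2 ^ (7 * j)))).filter (fun l => l % 3 = 1) with hI
    have hlp : ∀ l ∈ I, l < p := fun l hl => EX_lt (mem_filter.1 hl).1 hj1
    have hsplit := EX_split I (fun l => (jacobiSym (p : ℤ) l : ℝ)) (by
      intro l hl
      refine EX_pm ?_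
      rw [Int.gcd_natCast_natCast]
      exact (Nat.coprime_primes hp (h3 j l hl).1).2 (by have := hlp l hl; omega))
    have hmer := hM (2 ^ (2 ^ j)) (2 ^ (2 ^ (7 * j))) (EX_two_le j) (EX_jle j)
    rw [EX_ll, EX_ll, ← hI] at hmer
    push_cast at hmer
    have hsub : I.filter (fun l : ℕ => (jacobiSym (p : ℤ) l : ℝ) = -1) ⊆ A1 {p} 2 p := by
      intro l hl
      rw [mem_filter] at hl
      unfold A1
      rw [mem_filter]
      refine ⟨mem_pr.2 ⟨⟨(h3 j l hl.1).1.two_le, hlp l hl.1⟩, (h3 j l hl.1).1⟩,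
        (mem_filter.1 hl.1).2, p, mem_singleton_self p, ?_⟩
      exact_mod_cast hl.2
    have hle := EX_rs_mono hsub
    rw [abs_le] at h1
    nlinarith [h1.1, h1.2]

end Pool.Agent.H37.PPD
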