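import Pool.Agent.H37.PPD.CI
import Pool.Agent.H37.PPD.C2
import Pool.Agent.H37.PPC.Top

/-!
PPD ST: the structure theorem and the sharp bound.
-/

set_option autoImplicit false

namespace Pool.Agent.H37.PPD

open Finset Pool.Agent.H37.PPC

theorem rpow_five {x : ℝ} (hx : 1 ≤ x) : Real.log x ^ (5 / 4 : ℝ) ≤ 6 * x ^ (1 / 2 : ℝ) := by
  have hx0 : 0 < x := by linarith
  have h1 : Real.log x ≤ 4 * x ^ (1 / 4 : ℝ) := by
    have h2 : Real.log (x ^ (1 / 4 : ℝ)) ≤ x ^ (1 / 4 : ℝ) - 1 :=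
      Real.log_le_sub_one_of_pos (Real.rpow_pos_of_pos hx0 _)
    rw [Real.log_rpow hx0] at h2
    linarith
  have h0 : 0 ≤ Real.log x := Real.log_nonneg hx
  calc Real.log x ^ (5 / 4 : ℝ) ≤ (4 * x ^ (1 / 4 : ℝ)) ^ (5 / 4 : ℝ) :=
        Real.rpow_le_rpow h0 h1 (by norm_num)
    _ = 4 ^ (5 / 4 : ℝ) * x ^ (5 / 16 : ℝ) := by
        rw [Real.mul_rpow (by norm_num) (by positivity), ← Real.rpow_mul hx0.le]
        norm_num
    _ ≤ 6 * x ^ (1 / 2 : ℝ) := by
        have h3 : (4 : ℝ) ^ (5 / 4 : ℝ) ≤ 6 := by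
          have h4 : (4 : ℝ) ^ (5 / 4 : ℝ) = 4 * Real.sqrt 2 := by
            have h5 : (4 : ℝ) ^ (5 / 4 : ℝ) = 4 * 4 ^ (1 / 4 : ℝ) := by
              rw [show (5 / 4 : ℝ) = 1 + 1 / 4 by norm_num, Real.rpow_add (by norm_num),
                Real.rpow_one]
            have h6 : (4 : ℝ) ^ (1 / 4 : ℝ) = Real.sqrt 2 := by
              rw [Real.sqrt_eq_rpow, show (4 : ℝ) = 2 ^ (2 : ℝ) by norm_num,
                ← Real.rpow_mul (by norm_num)]
              norm_num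
            rw [h5, h6]
          rw [h4]
          have h7 : Real.sqrt 2 ≤ 1.5 := by
            rw [Real.sqrt_le_left (by norm_num)]
            norm_num
          linarith
        have h8 : x ^ (5 / 16 : ℝ) ≤ x ^ (1 / 2 : ℝ) :=
          Real.rpow_le_rpow_of_exponent_le hx (by norm_num)
        exact mul_le_mul h3 h8 (by positivity) (by norm_num)

/-- relation between `y` and `x` -/
theorem exp_ll_le {T x y : ℕ} (hT : 1 ≤ T) (hy : 2 ≤ y) (hyx : y ^ T ≤ x) (hxy : x < (y + 1) ^ T)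
    (a : ℝ) (ha : 0 ≤ a) :
    Real.exp (-a * ll y) ≤ (2 * T) ^ a / Real.log x ^ a := by
  have hx2 : 2 ≤ x := hy.trans ((Nat.le_self_pow (by omega) y).trans hyx)
  have hx0 : (0 : ℝ) < x := by exact_mod_cast (by omega : 0 < x)
  have hlx : 0 < Real.log x := Real.log_pos (by exact_mod_cast (by omega : 1 < x))
  have hly : 0 < Real.log y := Real.log_pos (by exact_mod_cast (by omega : 1 < y))
  have hlxy : Real.log x ≤ 2 * T * Real.log y := by
    have h1 : (x : ℝ) ≤ (y ^ 2) ^ T := by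
      have : x ≤ (y ^ 2) ^ T := hxy.le.trans (Nat.pow_le_pow_left (by nlinarith) T)
      exact_mod_cast this
    have h2 := Real.log_le_log hx0 h1
    rw [Real.log_pow, Real.log_pow] at h2
    push_cast at h2
    linarith
  have hT0 : (0 : ℝ) < T := by exact_mod_cast (by omega : 0 < T)
  have e1 : Real.exp (-a * ll y) = (Real.log y ^ a)⁻¹ := by
    unfold ll
    rw [Real.rpow_def_of_pos hly, ← Real.exp_neg]
    congr 1
    ring
  rw [e1, ← Real.div_rpow (by positivity) hlx.le]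
  rw [← Real.inv_rpow hly.le]
  apply Real.rpow_le_rpow (by positivity) _ ha
  rw [inv_eq_one_div, div_le_div_iff₀ hly hlx]
  linarith

/-- no prime factor up to `y` -/
def NP (y n : ℕ) : Prop := ∀ l ∈ pr 2 (y + 1), ¬ l ∣ n

open Classical in
/-- nonprime orders are rare unless `n = 0, 3 mod 4` and `n^2+n+1` has only large primes -/
theorem structure_main (ε : ℝ) (hε : 0 < ε) : ∃ C : ℝ, 0 < C ∧ ∀ x : ℕ, 2 ≤ x →
    (((Icc 2 x).filter (fun n => IsOrder n ∧ ¬ n.Prime ∧ (n % 4 = 1 ∨ n % 4 = 2 ∨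
      ∃ q : ℕ, q.Prime ∧ q ∣ n ^ 2 + n + 1 ∧ (q : ℝ) ≤ (x : ℝ) ^ (1 - ε)))).card : ℝ)
      ≤ C * x / Real.log x ^ (5 / 4 : ℝ) := by
  obtain ⟨s1, hs1, K1, hK1, H1⟩ := case_i
  obtain ⟨s2, hs2, H2'⟩ := case_ii
  obtain ⟨s3, hs3, H3'⟩ := case_iii
  obtain ⟨s4, hs4, K4, hK4, H4⟩ := case_iv
  obtain ⟨T0, hT0⟩ := exists_nat_ge ((s3 : ℝ) / ε)
  set T : ℕ := s1 + 2 * s2 + s4 + T0 + 1 with hT
  obtain ⟨K2, hK2, H2⟩ := H2' T
  obtain ⟨K3, hK3, H3⟩ := H3' T
  set K : ℝ := (K1 + K2 + K3 + 2 * K4) * (2 * T) ^ (5 / 4 : ℝ) + 6 + T ^ (5 / 4 : ℝ) with hK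
  have hTpos : (0 : ℝ) < T := by exact_mod_cast (by omega : 0 < T)
  have hK0 : 0 < K := by positivity
  refine ⟨K, hK0, ?_⟩
  intro x hx
  have hx0 : (0 : ℝ) < x := by exact_mod_cast (by omega : 0 < x)
  have hx1 : (1 : ℝ) ≤ x := by exact_mod_cast (by omega : 1 ≤ x)
  have hlx : 0 < Real.log x := Real.log_pos (by exact_mod_cast (by omega : 1 < x))
  have hlp : 0 < Real.log x ^ (5 / 4 : ℝ) := Real.rpow_pos_of_pos hlx _
  set G := (Icc 2 x).filter (fun n => IsOrder n ∧ ¬ n.Prime ∧ (n % 4 = 1 ∨ n % 4 = 2 ∨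
      ∃ q : ℕ, q.Prime ∧ q ∣ n ^ 2 + n + 1 ∧ (q : ℝ) ≤ (x : ℝ) ^ (1 - ε))) with hG
  have hGx : (G.card : ℝ) ≤ x := by
    have : G.card ≤ x := by
      calc _ ≤ (Icc 2 x).card := card_filter_le _ _
        _ ≤ x := by rw [Nat.card_Icc]; omega
    exact_mod_cast this
  by_cases hxt : x < 2 ^ T
  · have h1 : Real.log x ≤ T := by
      have h2 : Real.log x ≤ Real.log (2 ^ T) := Real.log_le_log hx0 (by exact_mod_cast hxt.le)
      rw [Real.log_pow] at h2
      have h3 := Real.log_two_lt_d9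
      nlinarith
    have h2 : Real.log x ^ (5 / 4 : ℝ) ≤ T ^ (5 / 4 : ℝ) := Real.rpow_le_rpow hlx.le h1 (by norm_num)
    have h3 : Real.log x ^ (5 / 4 : ℝ) ≤ K := by
      have : 0 ≤ (K1 + K2 + K3 + 2 * K4) * (2 * T) ^ (5 / 4 : ℝ) := by positivity
      linarith
    rw [le_div_iff₀ hlp]
    calc (G.card : ℝ) * Real.log x ^ (5 / 4 : ℝ) ≤ x * K := mul_le_mul hGx h3 hlp.le hx0.le
      _ = K * x := by ring
  · push Not at hxt
    obtain ⟨y, hy, hyx, hxy⟩ := exists_root T x (by omega) hxt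
    have hpow : ∀ s : ℕ, s ≤ T → y ^ s ≤ x := fun s hs =>
      (Nat.pow_le_pow_right (by omega) hs).trans hyx
    -- the pieces
    set GQ := G.filter (fun n => IsSquare n) with hGQ
    set G2 := G.filter (fun n => ¬ IsSquare n ∧ NP y n) with hG2
    set G1 := G.filter (fun n => ¬ IsSquare n ∧ (∃ p ∈ pr 2 (y + 1), p ∣ n) ∧
      ∃ q ∈ pr 2 (y + 1), q ∣ n ^ 2 + n + 1) with hG1
    set G4 := G.filter (fun n => ¬ IsSquare n ∧ (n % 4 = 1 ∨ n % 4 = 2) ∧
      NP y (n ^ 2 + n + 1)) with hG4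
    set G3 := G.filter (fun n => ¬ IsSquare n ∧ (∃ q : ℕ, q.Prime ∧ q ∣ n ^ 2 + n + 1 ∧
      (q : ℝ) ≤ (x : ℝ) ^ (1 - ε)) ∧ NP y (n ^ 2 + n + 1)) with hG3
    have hcov : G ⊆ GQ ∪ (G2 ∪ (G1 ∪ (G4 ∪ G3))) := by
      intro n hn
      have hn' := (mem_filter.1 hn).2
      simp only [mem_union]
      by_cases hsq : IsSquare n
      · left; exact mem_filter.2 ⟨hn, hsq⟩
      · right
        by_cases hp : ∃ p ∈ pr 2 (y + 1), p ∣ n
        · right
          by_cases hq : ∃ q ∈ pr 2 (y + 1), q ∣ n ^ 2 + n + 1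
          · left; exact mem_filter.2 ⟨hn, hsq, hp, hq⟩
          · right
            push Not at hq
            rcases hn'.2.2 with h | h | h
            · left; exact mem_filter.2 ⟨hn, hsq, Or.inl h, hq⟩
            · left; exact mem_filter.2 ⟨hn, hsq, Or.inr h, hq⟩
            · right; exact mem_filter.2 ⟨hn, hsq, h, hq⟩
        · push Not at hp
          left; exact mem_filter.2 ⟨hn, hsq, hp⟩
    have hc : G.card ≤ GQ.card + (G2.card + (G1.card + (G4.card + G3.card))) := by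
      refine (card_le_card hcov).trans ((card_union_le _ _).trans ?_)
      apply Nat.add_le_add_left
      refine (card_union_le _ _).trans ?_
      apply Nat.add_le_add_left
      refine (card_union_le _ _).trans ?_
      apply Nat.add_le_add_left
      exact card_union_le _ _
    have hc' : (G.card : ℝ) ≤ GQ.card + (G2.card + (G1.card + (G4.card + G3.card))) := by
      exact_mod_cast hc
    have hbase : ∀ n ∈ G, 1 ≤ n ∧ n ≤ x ∧ 2 ≤ n ∧ IsOrder n ∧ ¬ n.Prime := by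
      intro n hn
      rw [hG, mem_filter, mem_Icc] at hn
      exact ⟨by omega, hn.1.2, hn.1.1, hn.2.1, hn.2.2.1⟩
    -- squares
    have eQ : (GQ.card : ℝ) ≤ 6 * (x / Real.log x ^ (5 / 4 : ℝ)) := by
      have h1 := card_squares x GQ (fun n hn => by
        rw [hGQ, mem_filter] at hn
        exact ⟨(hbase n hn.1).1, (hbase n hn.1).2.1, hn.2⟩)
      have h2 : (GQ.card : ℝ) ≤ Real.sqrt x := by
        have : (GQ.card : ℝ) ≤ Nat.sqrt x := by exact_mod_cast h1
        exact this.trans Real.nat_sqrt_le_real_sqrt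
      refine h2.trans ?_
      rw [← mul_div_assoc, le_div_iff₀ hlp]
      have h3 := rpow_five hx1
      rw [← Real.sqrt_eq_rpow] at h3
      calc Real.sqrt x * Real.log x ^ (5 / 4 : ℝ) ≤ Real.sqrt x * (6 * Real.sqrt x) :=
            mul_le_mul_of_nonneg_left h3 (Real.sqrt_nonneg _)
        _ = 6 * (Real.sqrt x * Real.sqrt x) := by ring
        _ = 6 * x := by rw [Real.mul_self_sqrt hx0.le]
    have hexp := exp_ll_le (by omega : 1 ≤ T) hy hyx hxy (5 / 4) (by norm_num)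
    have e2 := H2 x y hy (hpow _ (by omega)) hxy G2 (fun n hn => by
      rw [hG2, mem_filter] at hn
      obtain ⟨a1, a2, a3, a4, a5⟩ := hbase n hn.1
      exact ⟨a1, a2, ⟨a3, a4, hn.2.1⟩, a5, hn.2.2⟩)
    have e1 := H1 x y hy (hpow _ (by omega)) G1 (fun n hn => by
      rw [hG1, mem_filter] at hn
      obtain ⟨a1, a2, a3, a4, a5⟩ := hbase n hn.1
      exact ⟨a1, a2, ⟨a3, a4, hn.2.1⟩, hn.2.2.1, hn.2.2.2⟩)
    have e4 := H4 x y hy (hpow _ (by omega)) G4 (fun n hn => by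
      rw [hG4, mem_filter] at hn
      obtain ⟨a1, a2, a3, a4, a5⟩ := hbase n hn.1
      exact ⟨a1, a2, ⟨a3, a4, hn.2.1⟩, hn.2.2.1, hn.2.2.2⟩)
    have hu : ⌊(x : ℝ) ^ (1 - ε)⌋₊ * y ^ s3 ≤ x := by
      have h1 : ((⌊(x : ℝ) ^ (1 - ε)⌋₊ : ℕ) : ℝ) ≤ (x : ℝ) ^ (1 - ε) :=
        Nat.floor_le (by positivity)
      have h2 : ((y : ℝ)) ^ s3 ≤ (x : ℝ) ^ ε := by
        have hy0 : (0 : ℝ) ≤ y := by positivity
        have h3 : (y : ℝ) ≤ (x : ℝ) ^ (1 / (T : ℝ)) := by
          have h4 : ((y : ℝ) ^ T) ≤ x := by exact_mod_cast hyx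
          calc (y : ℝ) = ((y : ℝ) ^ T) ^ (1 / (T : ℝ)) := by
                rw [← Real.rpow_natCast, ← Real.rpow_mul hy0, mul_one_div_cancel hTpos.ne',
                  Real.rpow_one]
            _ ≤ (x : ℝ) ^ (1 / (T : ℝ)) := Real.rpow_le_rpow (by positivity) h4 (by positivity)
        calc (y : ℝ) ^ s3 ≤ ((x : ℝ) ^ (1 / (T : ℝ))) ^ s3 := pow_le_pow_left₀ hy0 h3 _
          _ = (x : ℝ) ^ ((s3 : ℝ) / T) := by
              rw [← Real.rpow_natCast, ← Real.rpow_mul hx0.le]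
              congr 1
              field_simp
          _ ≤ (x : ℝ) ^ ε := by
              apply Real.rpow_le_rpow_of_exponent_le hx1
              rw [div_le_iff₀ hTpos]
              have h5 : (s3 : ℝ) / ε ≤ T := by
                refine hT0.trans ?_
                exact_mod_cast (by omega : T0 ≤ T)
              rw [div_le_iff₀ hε] at h5
              linarith
      have h6 : ((⌊(x : ℝ) ^ (1 - ε)⌋₊ * y ^ s3 : ℕ) : ℝ) ≤ x := by
        push_cast
        calc ((⌊(x : ℝ) ^ (1 - ε)⌋₊ : ℕ) : ℝ) * (y : ℝ) ^ s3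
            ≤ (x : ℝ) ^ (1 - ε) * (x : ℝ) ^ ε := mul_le_mul h1 h2 (by positivity) (by positivity)
          _ = x := by rw [← Real.rpow_add hx0]; simp
      exact_mod_cast h6
    have e3 := H3 x y ⌊(x : ℝ) ^ (1 - ε)⌋₊ hy hu hxy G3 (fun n hn => by
      rw [hG3, mem_filter] at hn
      obtain ⟨a1, a2, a3, a4, a5⟩ := hbase n hn.1
      obtain ⟨b1, ⟨q, q1, q2, q3⟩, b3⟩ := hn.2
      exact ⟨a1, a2, ⟨a3, a4, b1⟩, b3, q, q1, Nat.le_floor q3, q2⟩)
    have h34 : Real.exp (-(3 / 2) * ll y) ≤ 2 * Real.exp (-(5 / 4) * ll y) := by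
      have h1 := loglog_two_le
      have h2 := loglog_mono (le_refl 2) hy
      rw [Nat.cast_ofNat] at h2
      have h3 : -1 ≤ ll y := by unfold ll; linarith
      have h4 : Real.exp (1 / 4) ≤ 2 := by
        have h5 : Real.exp (1 / 4) ≤ Real.exp (Real.log 2) := by
          apply Real.exp_le_exp.2
          have := Real.log_two_gt_d9
          linarith
        rwa [Real.exp_log (by norm_num)] at h5
      calc Real.exp (-(3 / 2) * ll y) ≤ Real.exp (1 / 4 + -(5 / 4) * ll y) :=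
            Real.exp_le_exp.2 (by linarith)
        _ = Real.exp (1 / 4) * Real.exp (-(5 / 4) * ll y) := Real.exp_add _ _
        _ ≤ _ := mul_le_mul_of_nonneg_right h4 (Real.exp_pos _).le
    have e4' : (G4.card : ℝ) ≤ 2 * K4 * x * Real.exp (-(5 / 4) * ll y) := by
      refine e4.trans ?_
      calc K4 * x * Real.exp (-(3 / 2) * ll y) ≤ K4 * x * (2 * Real.exp (-(5 / 4) * ll y)) :=
            mul_le_mul_of_nonneg_left h34 (by positivity)
        _ = _ := by ring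
    have htot : (G2.card : ℝ) + (G1.card + (G4.card + G3.card))
        ≤ (K1 + K2 + K3 + 2 * K4) * x * Real.exp (-(5 / 4) * ll y) := by
      have : (K1 + K2 + K3 + 2 * K4) * x * Real.exp (-(5 / 4) * ll y)
          = K2 * x * Real.exp (-(5 / 4) * ll y) + (K1 * x * Real.exp (-(5 / 4) * ll y)
            + (2 * K4 * x * Real.exp (-(5 / 4) * ll y) + K3 * x * Real.exp (-(5 / 4) * ll y))) := by
        ring
      rw [this]
      linarith
    have htot2 : (K1 + K2 + K3 + 2 * K4) * x * Real.exp (-(5 / 4) * ll y)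
        ≤ (K1 + K2 + K3 + 2 * K4) * (2 * T) ^ (5 / 4 : ℝ) * (x / Real.log x ^ (5 / 4 : ℝ)) := by
      calc (K1 + K2 + K3 + 2 * K4) * x * Real.exp (-(5 / 4) * ll y)
          ≤ (K1 + K2 + K3 + 2 * K4) * x * ((2 * T) ^ (5 / 4 : ℝ) / Real.log x ^ (5 / 4 : ℝ)) :=
            mul_le_mul_of_nonneg_left hexp (by positivity)
        _ = _ := by ring
    have hxl : 0 ≤ (x : ℝ) / Real.log x ^ (5 / 4 : ℝ) := by positivity
    calc (G.card : ℝ) ≤ _ := hc'
      _ ≤ 6 * (x / Real.log x ^ (5 / 4 : ℝ)) + (K1 + K2 + K3 + 2 * K4) * (2 * T) ^ (5 / 4 : ℝ) *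
          (x / Real.log x ^ (5 / 4 : ℝ)) := by linarith
      _ ≤ K * (x / Real.log x ^ (5 / 4 : ℝ)) := by
          rw [hK]
          have : 0 ≤ (T : ℝ) ^ (5 / 4 : ℝ) * (x / Real.log x ^ (5 / 4 : ℝ)) := by positivity
          linarith
      _ = K * x / Real.log x ^ (5 / 4 : ℝ) := by ring

end Pool.Agent.H37.PPD
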