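import Pool.Agent.H37.PPD.Defs

/-!
PPD AP: the sieve for n with prescribed prime divisors of n and of n^2+n+1.

Step 1 (`AP_sieve`): from Pool.Agent.H37.PPC.sieve with κ = 3: for m ≥ 1, m y^s ≤ x, a residue a < m and S consisting of n = a + m k in
 [1,x]: r = k+1 runs in [1, X], X = x/m + 1 ≤ 2 x/m; for l ∤ m the condition l ∣ n is k ≡ -a/m mod l and q ∣ n²+n+1 (q ≡ 1 mod 3) is
 k ≡ (ρ-a)/m for the two roots ρ of t²+t+1 mod q (see the proof of `sieve_apply` in Pool/Agent/H37/PPC/Sv.lean, which is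
 the case a = 0; it can be copied and adapted).
Step 2: m = ∏P ∏Q; the n ∈ S lie in at most 2^|Q| residue classes a mod m: a mod p = 0 for p∈P, and a mod q is one of the at most two
 roots of t²+t+1 mod q for q∈Q (q prime: a polynomial of degree 2 over a field), and a mod m is determined by these (P, Q disjoint sets of primes:
 Finset.prod_primes_dvd / Nat.ModEq).  Sum over the classes.
-/

set_option autoImplicit false

namespace Pool.Agent.H37.PPD

open Finset Pool.Agent.H37.PPC

private lemma AP_roots_le {q : ℕ} [Fact q.Prime] :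
    (univ.filter (fun z : ZMod q => z ^ 2 + z + 1 = 0)).card ≤ 2 := by
  classical
  rcases (univ.filter (fun z : ZMod q => z ^ 2 + z + 1 = 0)).eq_empty_or_nonempty with h | ⟨w, hw⟩
  · rw [h]; simp
  · rw [mem_filter] at hw
    have hsub : univ.filter (fun z : ZMod q => z ^ 2 + z + 1 = 0) ⊆ {w, -w - 1} := by
      intro z hz
      rw [mem_filter] at hz
      rw [mem_insert, mem_singleton]
      have h1 : (z - w) * (z - (-w - 1)) = 0 := by
        have h2 := hz.2
        have h3 := hw.2
        linear_combination h2 - h3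
      rcases mul_eq_zero.1 h1 with h | h
      · exact Or.inl (sub_eq_zero.1 h)
      · exact Or.inr (sub_eq_zero.1 h)
    exact (card_le_card hsub).trans card_le_two

private lemma AP_roots {q : ℕ} [Fact q.Prime] (h3 : q % 3 = 1) :
    (univ.filter (fun z : ZMod q => z ^ 2 + z + 1 = 0)).card = 2 := by
  classical
  have hq : q.Prime := Fact.out
  have hdvd : 3 ∣ Fintype.card (ZMod q)ˣ := by
    rw [ZMod.card_units_eq_totient, Nat.totient_prime hq]
    omega
  have : Fact (Nat.Prime 3) := ⟨Nat.prime_three⟩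
  obtain ⟨u, hu⟩ := exists_prime_orderOf_dvd_card 3 hdvd
  have hu3 : u ^ 3 = 1 := by rw [← hu]; exact pow_orderOf_eq_one u
  have hu1 : u ≠ 1 := by
    intro h; rw [h, orderOf_one] at hu; omega
  set w : ZMod q := (u : ZMod q) with hw
  have hw3 : w ^ 3 = 1 := by
    rw [hw, ← Units.val_pow_eq_pow_val, hu3, Units.val_one]
  have hw1 : w ≠ 1 := by
    intro h
    apply hu1
    apply Units.ext
    rw [Units.val_one]; exact h
  have hw0 : w ≠ 0 := u.ne_zero
  have hww : w ^ 2 + w + 1 = 0 := by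
    have h : (w - 1) * (w ^ 2 + w + 1) = 0 := by
      have : (w - 1) * (w ^ 2 + w + 1) = w ^ 3 - 1 := by ring
      rw [this, hw3, sub_self]
    rcases mul_eq_zero.1 h with h | h
    · exact absurd (sub_eq_zero.1 h) hw1
    · exact h
  have hne : w ≠ w ^ 2 := by
    intro h
    apply hw1
    have h2 : w * (w - 1) = 0 := by
      have : w * (w - 1) = w ^ 2 - w := by ring
      rw [this, ← h, sub_self]
    rcases mul_eq_zero.1 h2 with h | h
    · exact absurd h hw0
    · exact sub_eq_zero.1 h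
  have hfil : univ.filter (fun z : ZMod q => z ^ 2 + z + 1 = 0) = {w, w ^ 2} := by
    ext z
    rw [mem_filter, mem_insert, mem_singleton]
    constructor
    · rintro ⟨-, h1⟩
      have h2 : (z - w) * (z - w ^ 2) = 0 := by
        have : (z - w) * (z - w ^ 2) = (z ^ 2 + z + 1) - z * (w ^ 2 + w + 1) + (w ^ 3 - 1) := by ring
        rw [this, h1, hww, hw3]; ring
      rcases mul_eq_zero.1 h2 with h | h
      · exact Or.inl (sub_eq_zero.1 h)
      · exact Or.inr (sub_eq_zero.1 h)
    · rintro (h | h)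
      · exact ⟨mem_univ _, by rw [h]; exact hww⟩
      · refine ⟨mem_univ _, ?_⟩
        rw [h]
        have : (w ^ 2) ^ 2 + w ^ 2 + 1 = (w ^ 2 + w + 1) + w * (w ^ 3 - 1) := by ring
        rw [this, hww, hw3]; ring
  rw [hfil]
  exact card_pair hne

private lemma AP_card {l m : ℕ} [Fact l.Prime] (hm : ¬ l ∣ m) (a c : ℕ) (P : ZMod l → Prop)
    [DecidablePred P] :
    ((range l).filter (fun r => P ((m * (r + c) + a : ℕ) : ZMod l))).card =
      (univ.filter P).card := by
  classical
  have hl : l.Prime := Fact.out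
  have hm0 : (m : ZMod l) ≠ 0 := by
    intro h
    exact hm ((ZMod.natCast_eq_zero_iff m l).1 h)
  set φ : ℕ → ZMod l := fun r => ((m * (r + c) + a : ℕ) : ZMod l) with hφ
  have hinj : Set.InjOn φ (range l) := by
    intro r hr r' hr' h
    rw [coe_range, Set.mem_Iio] at hr hr'
    simp only [hφ] at h
    push_cast at h
    have h1 : (m : ZMod l) * ((r : ZMod l) + c) = m * ((r' : ZMod l) + c) := by
      exact add_right_cancel h
    have h2 := add_right_cancel (mul_left_cancel₀ hm0 h1)
    rw [ZMod.natCast_eq_natCast_iff'] at h2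
    rwa [Nat.mod_eq_of_lt hr, Nat.mod_eq_of_lt hr'] at h2
  have himg : (range l).image φ = univ := by
    apply eq_univ_of_card
    rw [card_image_of_injOn hinj, card_range, ZMod.card]
  rw [← himg, filter_image]
  rw [card_image_of_injOn]
  exact hinj.mono (by
    intro r hr
    rw [mem_coe, mem_filter] at hr
    exact hr.1)

private lemma AP_sieve : ∃ C : ℝ, 0 < C ∧ ∃ s : ℕ, 0 < s ∧ ∀ (x y m a : ℕ), 2 ≤ y → 1 ≤ m →
    m * y ^ s ≤ x → ∀ Z0 Zq : Finset ℕ, Z0 ⊆ pr 2 (y + 1) → Zq ⊆ pr 2 (y + 1) →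
    (∀ l ∈ Z0, ¬ l ∣ m) → (∀ q ∈ Zq, q % 3 = 1 ∧ ¬ q ∣ m) →
    ∀ S : Finset ℕ, (∀ n ∈ S, n ≤ x ∧ n % m = a ∧ (∀ l ∈ Z0, ¬ l ∣ n) ∧
      (∀ q ∈ Zq, ¬ q ∣ n ^ 2 + n + 1)) →
    (S.card : ℝ) ≤ C * (x / m) * Real.exp (-(rs Z0 + 2 * rs Zq)) := by
  classical
  obtain ⟨C, hC, s, hs, hsv⟩ := sieve 3
  refine ⟨2 * C, by positivity, s, hs, ?_⟩
  intro x y m a hy hm hxm Z0 Zq hZ0 hZq h0m hq S hS
  set Ω : ℕ → Finset ℕ := fun l =>
    (if l ∈ Z0 then (range l).filter (fun r => l ∣ m * (r + (l - 1)) + a) else ∅) ∪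
    (if l ∈ Zq then (range l).filter (fun r =>
      l ∣ (m * (r + (l - 1)) + a) ^ 2 + (m * (r + (l - 1)) + a) + 1) else ∅) with hΩ
  have hcard : ∀ l : ℕ, (Ω l).card = (if l ∈ Z0 then 1 else 0) + (if l ∈ Zq then 2 else 0) := by
    intro l
    show ((if l ∈ Z0 then (range l).filter (fun r => l ∣ m * (r + (l - 1)) + a) else ∅) ∪
    (if l ∈ Zq then (range l).filter (fun r =>
      l ∣ (m * (r + (l - 1)) + a) ^ 2 + (m * (r + (l - 1)) + a) + 1) else ∅)).card = _
    rw [card_union_of_disjoint]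
    · congr 1
      · split_ifs with h
        · have : Fact l.Prime := ⟨(mem_pr.1 (hZ0 h)).2⟩
          have h1 := AP_card (h0m l h) a (l - 1) (fun z => z = 0)
          simp only [ZMod.natCast_eq_zero_iff] at h1
          rw [h1]
          rw [filter_eq']
          simp
        · simp
      · split_ifs with h
        · have : Fact l.Prime := ⟨(mem_pr.1 (hZq h)).2⟩
          have h1 := AP_card (hq l h).2 a (l - 1) (fun z => z ^ 2 + z + 1 = 0)
          rw [AP_roots (hq l h).1] at h1
          refine Eq.trans ?_ h1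
          congr 1
          ext r
          rw [mem_filter, mem_filter, ← ZMod.natCast_eq_zero_iff]
          push_cast
          rfl
        · simp
    · rw [disjoint_left]
      intro r ha hb
      split_ifs at ha with h1
      · split_ifs at hb with h2
        · rw [mem_filter] at ha hb
          have h3 : l ∣ 1 := by
            have h4 : l ∣ (m * (r + (l - 1)) + a) ^ 2 + (m * (r + (l - 1)) + a) :=
              dvd_add (dvd_pow ha.2 (by norm_num)) ha.2
            exact (Nat.dvd_add_right h4).1 hb.2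
          have hp := (mem_pr.1 (hZq h2)).2
          exact hp.one_lt.ne' (Nat.dvd_one.1 h3)
        · simp at hb
      · simp at ha
  have hkey : ∀ n ∈ S, ∀ l : ℕ, l.Prime → m * ((n / m + 1) % l + (l - 1)) + a ≡ n [MOD l] := by
    intro n hn l hl
    have hnm : m * (n / m) + a = n := by
      rw [← (hS n hn).2.1]
      exact Nat.div_add_mod n m
    have h1 : (n / m + 1) % l + (l - 1) ≡ n / m [MOD l] := by
      have h2 : (n / m + 1) % l + (l - 1) ≡ (n / m + 1) + (l - 1) [MOD l] :=
        (Nat.mod_modEq _ _).add_right _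
      have h3 : (n / m + 1) + (l - 1) = n / m + l := by
        have := hl.one_lt
        omega
      rw [h3] at h2
      exact h2.trans (by simp [Nat.ModEq])
    calc m * ((n / m + 1) % l + (l - 1)) + a ≡ m * (n / m) + a [MOD l] :=
          (Nat.ModEq.mul_left m h1).add_right a
      _ = n := hnm
  have hmain := hsv (x / m + 1) y hy (((Nat.le_div_iff_mul_le (by omega)).2 (by
      rw [mul_comm]; exact hxm)).trans (Nat.le_succ _)) Ω (by
    intro l hl
    refine ⟨?_, ?_, ?_⟩
    · intro r ha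
      change r ∈ ((if l ∈ Z0 then (range l).filter (fun r => l ∣ m * (r + (l - 1)) + a) else ∅) ∪
        (if l ∈ Zq then (range l).filter (fun r =>
          l ∣ (m * (r + (l - 1)) + a) ^ 2 + (m * (r + (l - 1)) + a) + 1) else ∅)) at ha
      rw [mem_union] at ha
      rcases ha with ha | ha
      · split_ifs at ha with h1
        · exact (mem_filter.1 ha).1
        · simp at ha
      · split_ifs at ha with h1
        · exact (mem_filter.1 ha).1
        · simp at ha
    · rw [hcard]
      have h2 := hl.two_le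
      split_ifs with h1 h3 h3
      · have h4 := (hq l h3).1
        have h5 : l ≠ 4 := by rintro rfl; revert hl; decide
        omega
      · omega
      · have h4 := (hq l h3).1
        omega
      · omega
    · rw [hcard]
      split_ifs <;> omega)
    (S.image (fun n => n / m + 1)) (by
      intro r ha
      rw [mem_image] at ha
      obtain ⟨n, hn, rfl⟩ := ha
      exact ⟨Nat.le_add_left 1 _, Nat.succ_le_succ (Nat.div_le_div_right (hS n hn).1)⟩) (by
      intro r ha l hl hin
      rw [mem_image] at ha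
      obtain ⟨n, hn, rfl⟩ := ha
      obtain ⟨h1, h2, h4, h5⟩ := hS n hn
      have hk := hkey n hn l hl
      change (n / m + 1) % l ∈ ((if l ∈ Z0 then (range l).filter (fun r => l ∣ m * (r + (l - 1)) + a) else ∅) ∪
        (if l ∈ Zq then (range l).filter (fun r =>
          l ∣ (m * (r + (l - 1)) + a) ^ 2 + (m * (r + (l - 1)) + a) + 1) else ∅)) at hin
      rw [mem_union] at hin
      rcases hin with hin | hin
      · split_ifs at hin with h6
        · exact h4 l h6 ((Nat.ModEq.dvd_iff hk (dvd_refl l)).1 (mem_filter.1 hin).2)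
        · simp at hin
      · split_ifs at hin with h6
        · apply h5 l h6
          have h8 := (((hk.pow 2).add hk).add_right 1)
          exact (Nat.ModEq.dvd_iff h8 (dvd_refl l)).1 (mem_filter.1 hin).2
        · simp at hin)
  have hinj : (S.image (fun n => n / m + 1)).card = S.card := by
    apply card_image_of_injOn
    intro u hu v hv huv
    have h1 : m * (u / m) + a = u := by
      rw [← (hS u hu).2.1]; exact Nat.div_add_mod u m
    have h2 : m * (v / m) + a = v := by
      rw [← (hS v hv).2.1]; exact Nat.div_add_mod v m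
    change u / m + 1 = v / m + 1 at huv
    rw [← h1, ← h2, Nat.succ_injective huv]
  rw [hinj] at hmain
  have hsum : ∑ l ∈ pr 2 (y + 1), ((Ω l).card : ℝ) / l = rs Z0 + 2 * rs Zq := by
    unfold rs
    have h1 : ∀ l ∈ pr 2 (y + 1), ((Ω l).card : ℝ) / l
        = (if l ∈ Z0 then (1 : ℝ) / l else 0) + (if l ∈ Zq then 2 * ((1 : ℝ) / l) else 0) := by
      intro l _
      rw [hcard]
      split_ifs <;> push_cast <;> ring
    rw [sum_congr rfl h1, sum_add_distrib, ← sum_filter, ← sum_filter]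
    congr 1
    · apply sum_congr _ (fun _ _ => rfl)
      ext l; rw [mem_filter]
      exact ⟨fun h => h.2, fun h => ⟨hZ0 h, h⟩⟩
    · rw [mul_sum]
      apply sum_congr _ (fun _ _ => rfl)
      ext l; rw [mem_filter]
      exact ⟨fun h => h.2, fun h => ⟨hZq h, h⟩⟩
  rw [hsum] at hmain
  have hm0 : (0 : ℝ) < m := by exact_mod_cast hm
  have hdiv : ((x / m + 1 : ℕ) : ℝ) ≤ 2 * ((x : ℝ) / m) := by
    push_cast
    have h1 : ((x / m : ℕ) : ℝ) ≤ (x : ℝ) / m := Nat.cast_div_le
    have h2 : (1 : ℝ) ≤ (x : ℝ) / m := by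
      rw [le_div_iff₀ hm0, one_mul]
      have : m ≤ x := le_trans (Nat.le_mul_of_pos_right m (Nat.pow_pos (by omega))) hxm
      exact_mod_cast this
    linarith
  calc (S.card : ℝ) ≤ C * ((x / m + 1 : ℕ) : ℝ) * Real.exp (-(rs Z0 + 2 * rs Zq)) := hmain
    _ ≤ C * (2 * ((x : ℝ) / m)) * Real.exp (-(rs Z0 + 2 * rs Zq)) := by
        apply mul_le_mul_of_nonneg_right _ (Real.exp_pos _).le
        exact mul_le_mul_of_nonneg_left hdiv hC.le
    _ = _ := by ring

private lemma AP_classes (P Q : Finset ℕ) (hP : ∀ p ∈ P, p.Prime) (hQ : ∀ q ∈ Q, q.Prime)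
    (hPQ : Disjoint P Q) (S : Finset ℕ)
    (hS : ∀ n ∈ S, (∀ p ∈ P, p ∣ n) ∧ (∀ q ∈ Q, q ∣ n ^ 2 + n + 1)) :
    (S.image (fun n => n % ((∏ p ∈ P, p) * ∏ q ∈ Q, q))).card ≤ 2 ^ Q.card := by
  classical
  set M := (∏ p ∈ P, p) * ∏ q ∈ Q, q with hM
  have hM0 : 0 < M := by
    apply Nat.mul_pos
    · exact prod_pos fun p hp => (hP p hp).pos
    · exact prod_pos fun q hq => (hQ q hq).pos
  have hMP : ∀ p ∈ P, p ∣ M := fun p hp => dvd_mul_of_dvd_left (dvd_prod_of_mem _ hp) _
  have hMQ : ∀ q ∈ Q, q ∣ M := fun q hq => dvd_mul_of_dvd_right (dvd_prod_of_mem _ hq) _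
  have hdvd : ∀ N : ℕ, (∀ p ∈ P, p ∣ N) → (∀ q ∈ Q, q ∣ N) → M ∣ N := by
    intro N h1 h2
    rw [hM, ← prod_union hPQ]
    apply Finset.prod_primes_dvd
    · intro r hr
      rw [mem_union] at hr
      rcases hr with h | h
      · exact (hP r h).prime
      · exact (hQ r h).prime
    · intro r hr
      rw [mem_union] at hr
      rcases hr with h | h
      · exact h1 r h
      · exact h2 r h
  have hle : ∀ q ∈ Q, ((range q).filter (fun r => q ∣ r ^ 2 + r + 1)).card ≤ 2 := by
    intro q hq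
    have : Fact q.Prime := ⟨hQ q hq⟩
    have h1 := AP_card (l := q) (m := 1) (by
      intro h
      exact (hQ q hq).one_lt.ne' (Nat.dvd_one.1 h)) 0 0 (fun z => z ^ 2 + z + 1 = 0)
    have h2 := AP_roots_le (q := q)
    rw [← h1] at h2
    refine le_trans (le_of_eq ?_) h2
    congr 1
    ext r
    rw [mem_filter, mem_filter, ← ZMod.natCast_eq_zero_iff]
    push_cast
    simp
  calc (S.image (fun n => n % M)).card
      ≤ (Q.pi (fun q => (range q).filter (fun r => q ∣ r ^ 2 + r + 1))).card := by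
        apply card_le_card_of_injOn (fun a => fun q _ => a % q)
        · intro a ha
          rw [mem_coe, mem_image] at ha
          obtain ⟨n, hn, rfl⟩ := ha
          rw [mem_coe, mem_pi]
          intro q hq
          rw [mem_filter, mem_range]
          refine ⟨Nat.mod_lt _ (hQ q hq).pos, ?_⟩
          have h1 : n % M % q ≡ n [MOD q] := by
            rw [Nat.mod_mod_of_dvd _ (hMQ q hq)]
            exact Nat.mod_modEq _ _
          exact (Nat.ModEq.dvd_iff (((h1.pow 2).add h1).add_right 1) (dvd_refl q)).2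
            ((hS n hn).2 q hq)
        · have key : ∀ a ∈ S.image (fun n => n % M), ∀ b ∈ S.image (fun n => n % M), a ≤ b →
              (fun (q : ℕ) (_ : q ∈ Q) => a % q) = (fun (q : ℕ) (_ : q ∈ Q) => b % q) → a = b := by
            intro a ha b hb hab heq
            rw [mem_image] at ha hb
            obtain ⟨n, hn, rfl⟩ := ha
            obtain ⟨n', hn', rfl⟩ := hb
            have h1 : M ∣ n' % M - n % M := by
              apply hdvd
              · intro p hp
                have e1 : p ∣ n % M := (Nat.dvd_mod_iff (hMP p hp)).2 ((hS n hn).1 p hp)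
                have e2 : p ∣ n' % M := (Nat.dvd_mod_iff (hMP p hp)).2 ((hS n' hn').1 p hp)
                exact Nat.dvd_sub e2 e1
              · intro q hq
                have e1 : n % M % q = n' % M % q := congrFun (congrFun heq q) hq
                exact (Nat.modEq_iff_dvd' hab).1 e1
            have h2 := Nat.mod_lt n' hM0
            have h3 : n' % M - n % M = 0 := by
              apply Nat.eq_zero_of_dvd_of_lt h1
              omega
            omega
          intro a ha b hb hab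
          rcases le_total a b with h | h
          · exact key a ha b hb h hab
          · exact (key b hb a ha h hab.symm).symm
    _ = ∏ q ∈ Q, ((range q).filter (fun r => q ∣ r ^ 2 + r + 1)).card := card_pi _ _
    _ ≤ ∏ _q ∈ Q, 2 := prod_le_prod' hle
    _ = 2 ^ Q.card := by rw [prod_const]

theorem count_PQ : ∃ C : ℝ, 0 < C ∧ ∃ s : ℕ, 0 < s ∧ ∀ (x y : ℕ), 2 ≤ y → ∀ P Q : Finset ℕ,
    (∀ p ∈ P, p.Prime) → (∀ q ∈ Q, q.Prime) → Disjoint P Q →
    (∏ p ∈ P, p) * (∏ q ∈ Q, q) * y ^ s ≤ x → ∀ Z0 Zq : Finset ℕ,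
    Z0 ⊆ pr 2 (y + 1) → Zq ⊆ pr 2 (y + 1) → Disjoint Z0 (P ∪ Q) → Disjoint Zq (P ∪ Q) →
    (∀ q ∈ Zq, q % 3 = 1) →
    ∀ S : Finset ℕ, (∀ n ∈ S, 1 ≤ n ∧ n ≤ x ∧ (∀ p ∈ P, p ∣ n) ∧ (∀ q ∈ Q, q ∣ n ^ 2 + n + 1) ∧
      (∀ l ∈ Z0, ¬ l ∣ n) ∧ (∀ q ∈ Zq, ¬ q ∣ n ^ 2 + n + 1)) →
    (S.card : ℝ) ≤ C * 2 ^ Q.card * (x / (((∏ p ∈ P, p) * (∏ q ∈ Q, q) : ℕ) : ℝ)) *
      Real.exp (-(rs Z0 + 2 * rs Zq)) := by
  classical
  obtain ⟨C, hC, s, hs, H⟩ := AP_sieve
  refine ⟨C, hC, s, hs, ?_⟩
  intro x y hy P Q hP hQ hPQ hx Z0 Zq hZ0 hZq hd0 hdq hq3 S hS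
  set M := (∏ p ∈ P, p) * ∏ q ∈ Q, q with hM
  have hM0 : 0 < M := by
    apply Nat.mul_pos
    · exact prod_pos fun p hp => (hP p hp).pos
    · exact prod_pos fun q hq => (hQ q hq).pos
  have hnd : ∀ l : ℕ, l.Prime → l ∉ P ∪ Q → ¬ l ∣ M := by
    intro l hl hlPQ hdiv
    rw [hM, ← prod_union hPQ] at hdiv
    rw [Prime.dvd_finsetProd_iff hl.prime] at hdiv
    obtain ⟨r, hr, hlr⟩ := hdiv
    have hrp : r.Prime := by
      rw [mem_union] at hr
      rcases hr with h | h
      · exact hP r h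
      · exact hQ r h
    have : l = r := (Nat.prime_dvd_prime_iff_eq hl hrp).1 hlr
    exact hlPQ (this ▸ hr)
  set E : ℝ := C * (x / (M : ℝ)) * Real.exp (-(rs Z0 + 2 * rs Zq)) with hE
  have hE0 : 0 ≤ E := by positivity
  have hcl := AP_classes P Q hP hQ hPQ S fun n hn => ⟨(hS n hn).2.2.1, (hS n hn).2.2.2.1⟩
  have hcard : S.card = ∑ a ∈ S.image (fun n => n % M), (S.filter (fun n => n % M = a)).card :=
    card_eq_sum_card_image _ _
  have hfib : ∀ a ∈ S.image (fun n => n % M), ((S.filter (fun n => n % M = a)).card : ℝ) ≤ E := by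
    intro a _
    apply H x y M a hy hM0 hx Z0 Zq hZ0 hZq
    · intro l hl
      exact hnd l (mem_pr.1 (hZ0 hl)).2 fun h => (disjoint_left.1 hd0) hl h
    · intro q hq
      exact ⟨hq3 q hq, hnd q (mem_pr.1 (hZq hq)).2 fun h => (disjoint_left.1 hdq) hq h⟩
    · intro n hn
      rw [mem_filter] at hn
      obtain ⟨_, h2, _, _, h5, h6⟩ := hS n hn.1
      exact ⟨h2, hn.2, h5, h6⟩
  calc (S.card : ℝ) = ∑ a ∈ S.image (fun n => n % M), ((S.filter (fun n => n % M = a)).card : ℝ) := by
        rw [hcard]; push_cast; rfl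
    _ ≤ ∑ _a ∈ S.image (fun n => n % M), E := sum_le_sum hfib
    _ = (S.image (fun n => n % M)).card * E := by rw [sum_const, nsmul_eq_mul]
    _ ≤ (2 ^ Q.card : ℝ) * E := by
        apply mul_le_mul_of_nonneg_right _ hE0
        exact_mod_cast hcl
    _ = _ := by rw [hE]; ring

end Pool.Agent.H37.PPD
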