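import Pool.Agent.H37.PPD.Defs

/-!
PPD SU: convergent sums over primes.

Blocks [2^(2^k), 2^(2^(k+1))): ∑ 1/p ≤ log 2 + C (mertens_two), (log p)^(-θ) ≤ (2^k log 2)^(-θ); geometric series.
-/

set_option autoImplicit false

namespace Pool.Agent.H37.PPD

open Finset Pool.Agent.H37.PPC

private theorem SU_log (k : ℕ) : Real.log ((2 ^ 2 ^ k : ℕ) : ℝ) = 2 ^ k * Real.log 2 := by
  push_cast
  rw [Real.log_pow]
  push_cast
  rfl

private theorem SU_ll (k : ℕ) : Real.log (Real.log ((2 ^ 2 ^ k : ℕ) : ℝ)) =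
    k * Real.log 2 + Real.log (Real.log 2) := by
  have h2 : Real.log 2 ≠ 0 := (Real.log_pos (by norm_num)).ne'
  rw [SU_log, Real.log_mul (by positivity) h2, Real.log_pow]

private theorem SU_block (θ : ℝ) (hθ : 0 < θ) (C : ℝ) (hC : ∀ a b : ℕ, 2 ≤ a → a ≤ b →
    |∑ p ∈ pr a b, (1 : ℝ) / p - (Real.log (Real.log b) - Real.log (Real.log a))| ≤ C) (k : ℕ) :
    ∑ p ∈ pr (2 ^ 2 ^ k) (2 ^ 2 ^ (k + 1)), Real.exp (-θ * ll p) / p ≤
      Real.exp (-θ * Real.log (Real.log 2)) * (Real.log 2 + C) * (Real.exp (-θ * Real.log 2)) ^ k := by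
  have hl2 : 0 < Real.log 2 := Real.log_pos (by norm_num)
  have ha : 2 ≤ 2 ^ 2 ^ k := by
    calc 2 = 2 ^ 1 := by norm_num
      _ ≤ 2 ^ 2 ^ k := Nat.pow_le_pow_right (by norm_num) Nat.one_le_two_pow
  have hab : 2 ^ 2 ^ k ≤ 2 ^ 2 ^ (k + 1) :=
    Nat.pow_le_pow_right (by norm_num) (Nat.pow_le_pow_right (by norm_num) (by omega))
  have h1 := (abs_le.mp (hC (2 ^ 2 ^ k) (2 ^ 2 ^ (k + 1)) ha hab)).2
  rw [SU_ll, SU_ll] at h1
  have h2 : ∑ p ∈ pr (2 ^ 2 ^ k) (2 ^ 2 ^ (k + 1)), (1 : ℝ) / p ≤ Real.log 2 + C := by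
    push_cast at h1
    linarith
  have h3 : ∀ p ∈ pr (2 ^ 2 ^ k) (2 ^ 2 ^ (k + 1)), Real.exp (-θ * ll p) / p ≤
      Real.exp (-θ * (k * Real.log 2 + Real.log (Real.log 2))) * ((1 : ℝ) / p) := by
    intro p hp
    rw [mem_pr] at hp
    have hp1 : ((2 ^ 2 ^ k : ℕ) : ℝ) ≤ p := by exact_mod_cast hp.1.1
    have hp0 : (0 : ℝ) < ((2 ^ 2 ^ k : ℕ) : ℝ) := by positivity
    have h4 : Real.log ((2 ^ 2 ^ k : ℕ) : ℝ) ≤ Real.log p := Real.log_le_log hp0 hp1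
    have h5 : 0 < Real.log ((2 ^ 2 ^ k : ℕ) : ℝ) := by
      rw [SU_log]
      positivity
    have h6 : k * Real.log 2 + Real.log (Real.log 2) ≤ ll p := by
      rw [← SU_ll]
      exact Real.log_le_log h5 h4
    rw [div_eq_mul_one_div]
    apply mul_le_mul_of_nonneg_right _ (by positivity)
    apply Real.exp_le_exp.mpr
    nlinarith
  have h7 : Real.exp (-θ * (k * Real.log 2 + Real.log (Real.log 2))) =
      Real.exp (-θ * Real.log (Real.log 2)) * (Real.exp (-θ * Real.log 2)) ^ k := by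
    rw [← Real.exp_nat_mul, ← Real.exp_add]
    congr 1
    ring
  calc ∑ p ∈ pr (2 ^ 2 ^ k) (2 ^ 2 ^ (k + 1)), Real.exp (-θ * ll p) / p
      ≤ ∑ p ∈ pr (2 ^ 2 ^ k) (2 ^ 2 ^ (k + 1)),
          Real.exp (-θ * (k * Real.log 2 + Real.log (Real.log 2))) * ((1 : ℝ) / p) :=
        Finset.sum_le_sum h3
    _ = Real.exp (-θ * (k * Real.log 2 + Real.log (Real.log 2))) *
          ∑ p ∈ pr (2 ^ 2 ^ k) (2 ^ 2 ^ (k + 1)), (1 : ℝ) / p := by rw [Finset.mul_sum]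
    _ ≤ Real.exp (-θ * (k * Real.log 2 + Real.log (Real.log 2))) * (Real.log 2 + C) :=
        mul_le_mul_of_nonneg_left h2 (Real.exp_pos _).le
    _ = _ := by rw [h7]; ring

theorem sum_rpow (θ : ℝ) (hθ : 0 < θ) : ∃ C : ℝ, 0 < C ∧ ∀ w : ℕ,
    ∑ p ∈ pr 2 w, Real.exp (-θ * ll p) / p ≤ C := by
  obtain ⟨C, hC, hM⟩ := mertens_two
  have hl2 : 0 < Real.log 2 := Real.log_pos (by norm_num)
  set E : ℝ := Real.exp (-θ * Real.log (Real.log 2)) * (Real.log 2 + C) with hE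
  have hE0 : 0 < E := by positivity
  set r : ℝ := Real.exp (-θ * Real.log 2) with hr
  have hr0 : 0 < r := Real.exp_pos _
  have hr1 : r < 1 := by
    rw [hr, Real.exp_lt_one_iff]
    nlinarith
  have key : ∀ K : ℕ, ∑ p ∈ pr 2 (2 ^ 2 ^ K), Real.exp (-θ * ll p) / p ≤
      E * ∑ k ∈ Finset.range K, r ^ k := by
    intro K
    induction K with
    | zero =>
      have : pr 2 (2 ^ 2 ^ 0) = ∅ := by
        ext p
        rw [mem_pr]
        simp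
        intro h1 h2
        omega
      rw [this]
      simp
    | succ K ih =>
      have hu : pr 2 (2 ^ 2 ^ (K + 1)) = pr 2 (2 ^ 2 ^ K) ∪ pr (2 ^ 2 ^ K) (2 ^ 2 ^ (K + 1)) := by
        have ha : 2 ≤ 2 ^ 2 ^ K := by
          calc 2 = 2 ^ 1 := by norm_num
            _ ≤ 2 ^ 2 ^ K := Nat.pow_le_pow_right (by norm_num) Nat.one_le_two_pow
        have hab : 2 ^ 2 ^ K ≤ 2 ^ 2 ^ (K + 1) :=
          Nat.pow_le_pow_right (by norm_num) (Nat.pow_le_pow_right (by norm_num) (by omega))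
        ext p
        rw [mem_union, mem_pr, mem_pr, mem_pr]
        constructor
        · rintro ⟨⟨h1, h2⟩, h3⟩
          rcases lt_or_ge p (2 ^ 2 ^ K) with h4 | h4
          · exact Or.inl ⟨⟨h1, h4⟩, h3⟩
          · exact Or.inr ⟨⟨h4, h2⟩, h3⟩
        · rintro (⟨⟨h1, h2⟩, h3⟩ | ⟨⟨h1, h2⟩, h3⟩)
          · exact ⟨⟨h1, lt_of_lt_of_le h2 hab⟩, h3⟩
          · exact ⟨⟨le_trans ha h1, h2⟩, h3⟩
      have hd : Disjoint (pr 2 (2 ^ 2 ^ K)) (pr (2 ^ 2 ^ K) (2 ^ 2 ^ (K + 1))) := by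
        rw [Finset.disjoint_left]
        intro p hp hp'
        rw [mem_pr] at hp hp'
        exact absurd hp.1.2 (not_lt.mpr hp'.1.1)
      rw [hu, Finset.sum_union hd, Finset.sum_range_succ, mul_add]
      exact add_le_add ih (SU_block θ hθ C hM K)
  refine ⟨E * (1 - r)⁻¹, mul_pos hE0 (inv_pos.mpr (by linarith)), fun w => ?_⟩
  have hsub : pr 2 w ⊆ pr 2 (2 ^ 2 ^ w) := by
    intro p hp
    rw [mem_pr] at hp ⊢
    refine ⟨⟨hp.1.1, lt_of_lt_of_le hp.1.2 ?_⟩, hp.2⟩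
    calc w ≤ 2 ^ w := Nat.lt_two_pow_self.le
      _ ≤ 2 ^ 2 ^ w := Nat.pow_le_pow_right (by norm_num) Nat.lt_two_pow_self.le
  calc ∑ p ∈ pr 2 w, Real.exp (-θ * ll p) / p
      ≤ ∑ p ∈ pr 2 (2 ^ 2 ^ w), Real.exp (-θ * ll p) / p :=
        Finset.sum_le_sum_of_subset_of_nonneg hsub (fun p _ _ => by positivity)
    _ ≤ E * ∑ k ∈ Finset.range w, r ^ k := key w
    _ ≤ E * (1 - r)⁻¹ := by
        apply mul_le_mul_of_nonneg_left _ hE0.le
        have hs := summable_geometric_of_lt_one hr0.le hr1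
        have := hs.sum_le_tsum (Finset.range w) (fun k _ => pow_nonneg hr0.le k)
        rwa [tsum_geometric_of_lt_one hr0.le hr1] at this

end Pool.Agent.H37.PPD
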