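import Pool.Agent.H37.PPD.Defs

/-!
PPD RS: density sums.

`Rsum`: primes l in [z,w) with (l/q) = -1 for some q ∈ Q.  Like Qsum in Pool/Agent/H37/PPC/QS.lean (copy and adapt):
 for l ≥ z prime (odd, not in Q) J(l|q) = J(q*|l) with q* = q if q ≡ 1 mod 4 and q* = -q if q ≡ 3 mod 4 (quadratic reciprocity), so
 1[∃ q∈Q, J(l|q) = -1] = 1 - 2^{-|Q|} ∑_{U⊆Q} J(∏_{q∈U} q* | l);  for U ≠ ∅ the number a = ∏_{U} q* is ± a product of distinct primes,
 ex_neg / ex_pos give b with J(a|b) = -1, psi_TW and TW_sum bound ∑ J(a|l)/l by C (M = 4|a| ≤ 12 ∏Q).  mertens_two for the main term.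
`sum_mod3`: 1[l ≡ 1 mod 3] = (1 + chi3 l)/2 for l ≠ 3; mertens_two, chi3_sum.
`sum_mod3_upper`: the same with TW_sum for chi3 (chi3_TW, M = 3, z ≥ 3^8; below 3^8 trivial bounds).
`sum_mod4`: 1[l ≡ 3 mod 4] = (1 - psi (-1) l)/2 for odd l; psi_TW (-1) (b = 3: ex_neg), TW_sum for z ≥ 4^8, trivial below.
`good_mod4`: v = n²+n+1 ≡ 3 mod 4 if n ≡ 1, 2 mod 4.  For a prime p ∣ n, every prime q ∣ v has J(p|q) ≠ -1 (planar_test) and ≠ 0, so
 J(p|v) = 1 (jacobiSym over v.primeFactorsList); if p ≡ 3 mod 4 then quadratic_reciprocity_three_mod_four gives J(p|v) = -J(v|p) = -J(1|p) = -1.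
-/

set_option autoImplicit false

namespace Pool.Agent.H37.PPD

open Finset Pool.Agent.H37.PPC

/-! ### signed primes -/

private noncomputable def RSst (q : ℕ) : ℤ := if q % 4 = 1 then (q : ℤ) else -(q : ℤ)

private theorem RSst_natAbs (q : ℕ) : (RSst q).natAbs = q := by
  unfold RSst
  split_ifs
  · exact Int.natAbs_natCast q
  · rw [Int.natAbs_neg]
    exact Int.natAbs_natCast q

private theorem RSst_rec (q l : ℕ) (hq : Odd q) (hl : Odd l) :
    jacobiSym (RSst q) l = jacobiSym (l : ℤ) q := by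
  have hq4 : q % 4 = 1 ∨ q % 4 = 3 := by
    have := Nat.odd_iff.1 hq
    omega
  have hl4 : l % 4 = 1 ∨ l % 4 = 3 := by
    have := Nat.odd_iff.1 hl
    omega
  unfold RSst
  rcases hq4 with h | h
  · rw [if_pos h]
    exact jacobiSym.quadratic_reciprocity_one_mod_four h hl
  · rw [if_neg (by omega), jacobiSym.neg _ hl]
    rcases hl4 with h' | h'
    · rw [ZMod.χ₄_nat_one_mod_four h', one_mul]
      exact jacobiSym.quadratic_reciprocity_one_mod_four' hq h'
    · rw [ZMod.χ₄_nat_three_mod_four h', jacobiSym.quadratic_reciprocity_three_mod_four h h']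
      ring

private theorem RSst_prod_natAbs (U : Finset ℕ) : (∏ q ∈ U, RSst q).natAbs = ∏ q ∈ U, q := by
  classical
  induction U using Finset.induction_on with
  | empty => simp
  | insert a s ha ih =>
    rw [Finset.prod_insert ha, Finset.prod_insert ha, Int.natAbs_mul, ih, RSst_natAbs]

private theorem RSst_jprod (U : Finset ℕ) (l : ℕ) :
    jacobiSym (∏ q ∈ U, RSst q) l = ∏ q ∈ U, jacobiSym (RSst q) l := by
  classical
  induction U using Finset.induction_on with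
  | empty => simp [jacobiSym.one_left]
  | insert a s ha ih =>
    rw [Finset.prod_insert ha, Finset.prod_insert ha, jacobiSym.mul_left, ih]

private theorem RSst_ex (U : Finset ℕ) (hU : U.Nonempty) (hp : ∀ q ∈ U, q.Prime) :
    (∏ q ∈ U, RSst q) ≠ 0 ∧ ∃ b : ℕ, Odd b ∧ jacobiSym (∏ q ∈ U, RSst q) b = -1 := by
  have h1 := RSst_prod_natAbs U
  have h2 : 0 < ∏ q ∈ U, q := qs_prod_pos U hp
  have h0 : (∏ q ∈ U, RSst q) ≠ 0 := by
    intro h
    rw [h] at h1
    simp at h1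
    omega
  refine ⟨h0, ?_⟩
  rcases lt_or_gt_of_ne h0 with h | h
  · exact ex_neg _ h
  · have h3 : (∏ q ∈ U, RSst q) = ((∏ q ∈ U, q : ℕ) : ℤ) := by
      rw [← h1]
      exact (Int.natAbs_of_nonneg h.le).symm
    rw [h3]
    exact ex_pos U hU hp

private theorem RS_inner (Q : Finset ℕ) (l : ℕ) (hl : l.Prime) (hl2 : 2 < l)
    (hQ : ∀ q ∈ Q, q.Prime ∧ 2 < q) (hQl : ∀ q ∈ Q, q < l) :
    (if (∃ q ∈ Q, jacobiSym (l : ℤ) q = -1) then (1 : ℝ) / l else 0)
      = (1 - (1 / 2) ^ Q.card) * ((1 : ℝ) / l)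
        - (1 / 2) ^ Q.card * ∑ U ∈ Q.powerset.erase ∅, psi (∏ q ∈ U, RSst q) l / l := by
  classical
  have hodd : Odd l := hl.odd_of_ne_two (by omega)
  have hJ : ∀ q ∈ Q, jacobiSym (l : ℤ) q = 1 ∨ jacobiSym (l : ℤ) q = -1 := by
    intro q hq
    apply jacobiSym.eq_one_or_neg_one
    rw [Int.gcd_natCast_natCast]
    exact (Nat.coprime_primes hl (hQ q hq).1).2 (by have := hQl q hq; omega)
  have hex : (if (∃ q ∈ Q, jacobiSym (l : ℤ) q = -1) then (1 : ℝ) else 0)
      = 1 - ∏ q ∈ Q, ((1 + (jacobiSym (l : ℤ) q : ℝ)) / 2) := by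
    by_cases h : ∃ q ∈ Q, jacobiSym (l : ℤ) q = -1
    · rw [if_pos h]
      obtain ⟨p, hp, hpj⟩ := h
      rw [Finset.prod_eq_zero hp]
      · ring
      · rw [hpj]
        push_cast
        ring
    · rw [if_neg h]
      rw [Finset.prod_eq_one]
      · ring
      · intro p hp
        have h1 : jacobiSym (l : ℤ) p = 1 := by
          rcases hJ p hp with h1 | h1
          · exact h1
          · exact absurd ⟨p, hp, h1⟩ h
        rw [h1]
        push_cast
        ring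
  have hprod : ∏ q ∈ Q, ((1 + (jacobiSym (l : ℤ) q : ℝ)) / 2)
      = (1 / 2) ^ Q.card * (1 + ∑ U ∈ Q.powerset.erase ∅, psi (∏ q ∈ U, RSst q) l) := by
    have e1 : ∏ q ∈ Q, ((1 + (jacobiSym (l : ℤ) q : ℝ)) / 2)
        = (1 / 2) ^ Q.card * ∏ q ∈ Q, (1 + (jacobiSym (l : ℤ) q : ℝ)) := by
      rw [← Finset.prod_const, ← Finset.prod_mul_distrib]
      refine Finset.prod_congr rfl fun p _ => ?_
      ring
    rw [e1, Finset.prod_one_add]
    congr 1
    rw [← Finset.add_sum_erase _ _ (Finset.empty_mem_powerset Q)]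
    congr 1
    refine Finset.sum_congr rfl fun U hU => ?_
    rw [Finset.mem_erase, Finset.mem_powerset] at hU
    unfold psi
    rw [if_pos hodd, RSst_jprod U l]
    push_cast
    refine Finset.prod_congr rfl fun q hq => ?_
    have hq' := hQ q (hU.2 hq)
    rw [RSst_rec q l (hq'.1.odd_of_ne_two (by omega)) hodd]
  have hL : (if (∃ q ∈ Q, jacobiSym (l : ℤ) q = -1) then (1 : ℝ) / l else 0)
      = (1 - ∏ q ∈ Q, ((1 + (jacobiSym (l : ℤ) q : ℝ)) / 2)) * (1 / l) := by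
    rw [← hex]
    by_cases h2 : ∃ q ∈ Q, jacobiSym (l : ℤ) q = -1
    · rw [if_pos h2, if_pos h2]
      ring
    · rw [if_neg h2, if_neg h2]
      ring
  rw [hL, hprod]
  have hS : ∑ U ∈ Q.powerset.erase ∅, psi (∏ q ∈ U, RSst q) l / l
      = (1 / l) * ∑ U ∈ Q.powerset.erase ∅, psi (∏ q ∈ U, RSst q) l := by
    rw [Finset.mul_sum]
    refine Finset.sum_congr rfl fun U _ => ?_
    ring
  rw [hS]
  ring

theorem Rsum : ∃ C : ℝ, 0 < C ∧ ∀ Q : Finset ℕ, Q.Nonempty → (∀ q ∈ Q, q.Prime ∧ 2 < q) →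
    ∀ z w : ℕ, (12 * ∏ q ∈ Q, q) ^ 8 ≤ z → z ≤ w →
    (1 - (1 / 2) ^ Q.card) * (ll w - ll z) - C ≤ rs (A0 Q z w) := by
  classical
  obtain ⟨C1, hC1, h1⟩ := TW_sum
  obtain ⟨C3, hC3, h3⟩ := mertens_two
  refine ⟨C1 + C3, by positivity, ?_⟩
  intro Q hQne hQ z w hz hzw
  set P := ∏ q ∈ Q, q with hP
  have hPpos : 0 < P := qs_prod_pos Q (fun q hq => (hQ q hq).1)
  have hz12 : 12 * P ≤ z := by
    refine le_trans ?_ hz
    calc 12 * P = (12 * P) ^ 1 := by ring
      _ ≤ (12 * P) ^ 8 := Nat.pow_le_pow_right (by omega) (by norm_num)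
  have hQz : ∀ q ∈ Q, q < z := by
    intro q hq
    have : q ≤ P := Nat.le_of_dvd hPpos (Finset.dvd_prod_of_mem (fun i => i) hq)
    omega
  set c : ℝ := (1 / 2) ^ Q.card with hc
  have hc0 : 0 < c := by positivity
  have hc1 : c ≤ 1 := pow_le_one₀ (by norm_num) (by norm_num)
  have key : rs (A0 Q z w)
      = (1 - c) * ∑ l ∈ pr z w, (1 : ℝ) / l
        - c * ∑ U ∈ Q.powerset.erase ∅, ∑ l ∈ pr z w, psi (∏ q ∈ U, RSst q) l / l := by
    unfold rs A0
    rw [Finset.sum_filter]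
    have e1 : ∀ l ∈ pr z w,
        (if (∃ q ∈ Q, jacobiSym (l : ℤ) q = -1) then (1 : ℝ) / l else 0)
        = (1 - c) * ((1 : ℝ) / l)
        - c * ∑ U ∈ Q.powerset.erase ∅, psi (∏ q ∈ U, RSst q) l / l := by
      intro l hl
      rw [mem_pr] at hl
      exact RS_inner Q l hl.2 (by omega) hQ (fun q hq => lt_of_lt_of_le (hQz q hq) hl.1.1)
    rw [Finset.sum_congr rfl e1, Finset.sum_sub_distrib, ← Finset.mul_sum, ← Finset.mul_sum]
    congr 1
    congr 1
    rw [Finset.sum_comm]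
  rw [key]
  have hU : ∀ U ∈ Q.powerset.erase ∅, ∑ l ∈ pr z w, psi (∏ q ∈ U, RSst q) l / l ≤ C1 := by
    intro U hU
    rw [Finset.mem_erase, Finset.mem_powerset] at hU
    have hUne : U.Nonempty := Finset.nonempty_iff_ne_empty.2 hU.1
    have hUp : ∀ p ∈ U, p.Prime := fun p hp => (hQ p (hU.2 hp)).1
    have hUpos : 0 < ∏ p ∈ U, p := qs_prod_pos U hUp
    have hUle : ∏ p ∈ U, p ≤ P := qs_prod_le Q U (fun q hq => (hQ q hq).1) hU.2
    obtain ⟨g0, g1⟩ := RSst_ex U hUne hUp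
    apply h1 _ (4 * (∏ q ∈ U, RSst q).natAbs) _ (psi_TW _ g0 g1) z w _ hzw
    · rw [RSst_prod_natAbs]
      omega
    · rw [RSst_prod_natAbs]
      exact le_trans (Nat.pow_le_pow_left (by omega) 8) hz
  have hsumU : ∑ U ∈ Q.powerset.erase ∅, ∑ l ∈ pr z w, psi (∏ q ∈ U, RSst q) l / l
      ≤ 2 ^ Q.card * C1 := by
    refine le_trans (Finset.sum_le_sum hU) ?_
    rw [Finset.sum_const, nsmul_eq_mul]
    apply mul_le_mul_of_nonneg_right _ hC1.le
    have : ((Q.powerset.erase ∅).card : ℝ) ≤ (Q.powerset.card : ℝ) := by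
      exact_mod_cast Finset.card_le_card (Finset.erase_subset _ _)
    rw [Finset.card_powerset] at this
    push_cast at this
    exact this
  have herr : c * ∑ U ∈ Q.powerset.erase ∅, ∑ l ∈ pr z w, psi (∏ q ∈ U, RSst q) l / l ≤ C1 := by
    have g1 : c * ∑ U ∈ Q.powerset.erase ∅, ∑ l ∈ pr z w, psi (∏ q ∈ U, RSst q) l / l
          ≤ c * (2 ^ Q.card * C1) :=
      mul_le_mul_of_nonneg_left hsumU hc0.le
    have g3 : c * 2 ^ Q.card = 1 := by
      rw [hc, ← mul_pow]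
      norm_num
    have g2 : c * (2 ^ Q.card * C1) = C1 := by
      rw [← mul_assoc, g3, one_mul]
    linarith
  have m1 := h3 z w (by omega) hzw
  rw [abs_le] at m1
  have m3 : (1 - c) * ((ll w - ll z) - C3) ≤ (1 - c) * (∑ l ∈ pr z w, (1 : ℝ) / l) := by
    apply mul_le_mul_of_nonneg_left _ (by linarith)
    unfold ll
    linarith [m1.1]
  have m4 : (1 - c) * C3 ≤ C3 := by
    calc (1 - c) * C3 ≤ 1 * C3 := mul_le_mul_of_nonneg_right (by linarith) hC3.le
      _ = C3 := one_mul _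
  have m5 : (1 - c) * ((ll w - ll z) - C3) = (1 - c) * (ll w - ll z) - (1 - c) * C3 := by ring
  linarith

/-! ### characters with a fixed modulus -/

private theorem RS_fixed (ψ : ℕ → ℝ) (M : ℕ) (hM : 2 ≤ M) (hψ : TW ψ M) :
    ∃ C : ℝ, 0 < C ∧ ∀ z w : ℕ, 2 ≤ z → z ≤ w → ∑ q ∈ pr z w, ψ q / q ≤ C := by
  classical
  obtain ⟨C1, hC1, h1⟩ := TW_sum
  have hpos : (0 : ℝ) ≤ ∑ q ∈ pr 2 (M ^ 8), (1 : ℝ) / q := Finset.sum_nonneg fun q _ => by positivity
  refine ⟨C1 + ∑ q ∈ pr 2 (M ^ 8), (1 : ℝ) / q, by linarith, ?_⟩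
  intro z w hz hzw
  have hval : ∀ q : ℕ, ψ q / q ≤ (1 : ℝ) / q := by
    intro q
    have : ψ q ≤ 1 := by
      rcases hψ.val q with h | h | h <;> rw [h] <;> norm_num
    exact div_le_div_of_nonneg_right this (Nat.cast_nonneg q)
  have hsplit : ∑ q ∈ pr z w, ψ q / q
      = ∑ q ∈ (pr z w).filter (fun q => q < M ^ 8), ψ q / q
        + ∑ q ∈ (pr z w).filter (fun q => ¬ q < M ^ 8), ψ q / q :=
    (Finset.sum_filter_add_sum_filter_not _ _ _).symm
  rw [hsplit]
  have e1 : ∑ q ∈ (pr z w).filter (fun q => q < M ^ 8), ψ q / q ≤ ∑ q ∈ pr 2 (M ^ 8), (1 : ℝ) / q := by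
    refine le_trans (Finset.sum_le_sum fun q _ => hval q) ?_
    apply Finset.sum_le_sum_of_subset_of_nonneg
    · intro q hq
      rw [Finset.mem_filter, mem_pr] at hq
      rw [mem_pr]
      exact ⟨⟨by omega, hq.2⟩, hq.1.2⟩
    · intro q _ _
      positivity
  have e2 : ∑ q ∈ (pr z w).filter (fun q => ¬ q < M ^ 8), ψ q / q ≤ C1 := by
    have hM8 : M ^ 8 ≤ max z (M ^ 8) := le_max_right _ _
    by_cases hw : max z (M ^ 8) ≤ w
    · have : (pr z w).filter (fun q => ¬ q < M ^ 8) = pr (max z (M ^ 8)) w := by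
        ext q
        rw [Finset.mem_filter, mem_pr, mem_pr, max_le_iff]
        constructor
        · rintro ⟨⟨⟨a, b⟩, c⟩, d⟩
          exact ⟨⟨⟨a, by omega⟩, b⟩, c⟩
        · rintro ⟨⟨⟨a, a'⟩, b⟩, c⟩
          exact ⟨⟨⟨a, b⟩, c⟩, by omega⟩
      rw [this]
      exact h1 ψ M hM hψ _ w hM8 hw
    · have : (pr z w).filter (fun q => ¬ q < M ^ 8) = ∅ := by
        rw [Finset.filter_eq_empty_iff]
        intro q hq
        rw [mem_pr] at hq
        have h5 : ¬ (z ≤ w ∧ M ^ 8 ≤ w) := fun h => hw (max_le h.1 h.2)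
        have h6 : w < M ^ 8 := by
          by_contra h7
          exact h5 ⟨hzw, by omega⟩
        omega
      rw [this, Finset.sum_empty]
      exact hC1.le
  linarith

private theorem RS_one {a : ℕ} (ha : 1 ≤ a) (s : Finset ℕ) :
    ∑ l ∈ s, (if l = a then (1 : ℝ) / l else 0) ≤ 1 := by
  classical
  rw [Finset.sum_ite_eq']
  split_ifs
  · have h1 : (1 : ℝ) ≤ a := by exact_mod_cast ha
    rw [div_le_one (by linarith)]
    exact h1
  · norm_num

theorem sum_mod3 : ∃ C : ℝ, 0 < C ∧ ∀ z w : ℕ, 2 ≤ z → z ≤ w →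
    ll w - ll z - C ≤ 2 * rs ((pr z w).filter (fun l => l % 3 = 1)) := by
  obtain ⟨C2, hC2, h2⟩ := chi3_sum
  obtain ⟨C3, hC3, h3⟩ := mertens_two
  refine ⟨C2 + C3 + 1, by positivity, ?_⟩
  intro z w hz hzw
  have m1 := h3 z w hz hzw
  rw [abs_le] at m1
  have m2 := h2 z w hz hzw
  have h1 : ∀ l ∈ pr z w, (1 : ℝ) / l + chi3 l / l - (if l = 3 then (1 : ℝ) / l else 0)
      ≤ 2 * (if l % 3 = 1 then (1 : ℝ) / l else 0) := by
    intro l hl
    rw [mem_pr] at hl
    have h0 : (0 : ℝ) ≤ (1 : ℝ) / l := by positivity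
    unfold chi3
    by_cases h3' : l = 3
    · subst h3'
      norm_num
    · have hne : l % 3 ≠ 0 := by
        intro h
        have h3 : 3 ∣ l := Nat.dvd_of_mod_eq_zero h
        have := (Nat.prime_dvd_prime_iff_eq Nat.prime_three hl.2).1 h3
        omega
      have hlt : l % 3 < 3 := Nat.mod_lt _ (by norm_num)
      rw [if_neg h3']
      rcases (by omega : l % 3 = 1 ∨ l % 3 = 2) with h | h
      · rw [if_pos h, if_pos h]
        linarith
      · rw [if_neg (by omega), if_pos h, if_neg (by omega)]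
        have : (-1 : ℝ) / l = -((1 : ℝ) / l) := by ring
        rw [this]
        linarith
  have h4 := Finset.sum_le_sum h1
  rw [Finset.sum_sub_distrib, Finset.sum_add_distrib, ← Finset.mul_sum] at h4
  have h5 := RS_one (a := 3) (by norm_num) (pr z w)
  unfold rs ll
  rw [Finset.sum_filter]
  linarith [m1.1]

theorem sum_mod3_upper : ∃ C : ℝ, 0 < C ∧ ∀ z w : ℕ, 2 ≤ z → z ≤ w →
    2 * rs ((pr z w).filter (fun l => l % 3 = 1)) ≤ ll w - ll z + C := by
  obtain ⟨C2, hC2, h2⟩ := RS_fixed chi3 3 (by norm_num) chi3_TW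
  obtain ⟨C3, hC3, h3⟩ := mertens_two
  refine ⟨C2 + C3, by positivity, ?_⟩
  intro z w hz hzw
  have m1 := h3 z w hz hzw
  rw [abs_le] at m1
  have m2 := h2 z w hz hzw
  have h1 : ∀ l ∈ pr z w, 2 * (if l % 3 = 1 then (1 : ℝ) / l else 0) ≤ (1 : ℝ) / l + chi3 l / l := by
    intro l hl
    have h0 : (0 : ℝ) ≤ (1 : ℝ) / l := by positivity
    unfold chi3
    have hlt : l % 3 < 3 := Nat.mod_lt _ (by norm_num)
    rcases (by omega : l % 3 = 0 ∨ l % 3 = 1 ∨ l % 3 = 2) with h | h | h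
    · rw [if_neg (by omega), if_neg (by omega), if_neg (by omega)]
      simp only [zero_div, mul_zero, add_zero]
      exact h0
    · rw [if_pos h, if_pos h]
      linarith
    · rw [if_neg (by omega), if_neg (by omega), if_pos h]
      have : (-1 : ℝ) / l = -((1 : ℝ) / l) := by ring
      rw [this]
      linarith
  have h4 := Finset.sum_le_sum h1
  rw [Finset.sum_add_distrib, ← Finset.mul_sum] at h4
  unfold rs ll
  rw [Finset.sum_filter]
  linarith [m1.2]

theorem sum_mod4 : ∃ C : ℝ, 0 < C ∧ ∀ z w : ℕ, 2 ≤ z → z ≤ w →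
    (1 / 2) * (ll w - ll z) - C ≤ rs ((pr z w).filter (fun l => l % 4 = 3)) := by
  obtain ⟨C2, hC2, h2⟩ := RS_fixed (psi (-1)) (4 * (-1 : ℤ).natAbs) (by norm_num)
    (psi_TW (-1) (by norm_num) (ex_neg (-1) (by norm_num)))
  obtain ⟨C3, hC3, h3⟩ := mertens_two
  refine ⟨C2 + C3 + 1, by positivity, ?_⟩
  intro z w hz hzw
  have m1 := h3 z w hz hzw
  rw [abs_le] at m1
  have m2 := h2 z w hz hzw
  have h1 : ∀ l ∈ pr z w, (1 : ℝ) / l - psi (-1) l / l - (if l = 2 then (1 : ℝ) / l else 0)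
      ≤ 2 * (if l % 4 = 3 then (1 : ℝ) / l else 0) := by
    intro l hl
    rw [mem_pr] at hl
    have h0 : (0 : ℝ) ≤ (1 : ℝ) / l := by positivity
    by_cases h3' : l = 2
    · subst h3'
      have : psi (-1) 2 = 0 := by
        unfold psi
        rw [if_neg (by decide)]
      rw [this]
      norm_num
    · have hodd : Odd l := hl.2.odd_of_ne_two h3'
      have hl4 : l % 4 = 1 ∨ l % 4 = 3 := by
        have := Nat.odd_iff.1 hodd
        omega
      rw [if_neg h3']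
      unfold psi
      rw [if_pos hodd, jacobiSym.at_neg_one hodd]
      rcases hl4 with h | h
      · rw [ZMod.χ₄_nat_one_mod_four h, if_neg (by omega)]
        push_cast
        linarith
      · rw [ZMod.χ₄_nat_three_mod_four h, if_pos h]
        push_cast
        have : (-1 : ℝ) / l = -((1 : ℝ) / l) := by ring
        rw [this]
        linarith
  have h4 := Finset.sum_le_sum h1
  rw [Finset.sum_sub_distrib, Finset.sum_sub_distrib, ← Finset.mul_sum] at h4
  have h5 := RS_one (a := 2) (by norm_num) (pr z w)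
  unfold rs ll
  rw [Finset.sum_filter]
  linarith [m1.1]

theorem good_mod4 {n p : ℕ} (hn : Good n) (h4 : n % 4 = 1 ∨ n % 4 = 2) (hp : p.Prime)
    (hpn : p ∣ n) : p % 4 ≠ 3 := by
  intro hp3
  set v := n ^ 2 + n + 1 with hv
  have hv4 : v % 4 = 3 := by
    have h1 : v % 4 = ((n % 4) ^ 2 + n % 4 + 1) % 4 := by
      rw [hv]
      simp [Nat.add_mod, Nat.pow_mod]
    rw [h1]
    rcases h4 with h | h <;> rw [h] <;> norm_num
  have hv0 : v ≠ 0 := by omega
  have hq1 : ∀ q ∈ v.primeFactorsList, jacobiSym (p : ℤ) q = 1 := by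
    intro q hq
    have hqp : q.Prime := Nat.prime_of_mem_primeFactorsList hq
    have hqv : q ∣ v := Nat.dvd_of_mem_primeFactorsList hq
    have hne : q ≠ p := by
      intro h
      subst h
      have h1 : q ∣ n ^ 2 + n := Dvd.dvd.add (dvd_pow hpn (by norm_num)) hpn
      have h3 : q ∣ 1 := (Nat.dvd_add_right h1).1 hqv
      exact hqp.one_lt.ne' (Nat.dvd_one.1 h3)
    rcases jacobiSym.eq_one_or_neg_one (a := (p : ℤ)) (b := q) (by
      rw [Int.gcd_natCast_natCast]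
      exact (Nat.coprime_primes hp hqp).2 (Ne.symm hne)) with h | h
    · exact h
    · exact absurd h (planar_test n p q hn.1 hn.2.1 hn.2.2 hp hpn hqp hqv)
  have hJ1 : jacobiSym (p : ℤ) v = 1 := by
    have h1 : jacobiSym (p : ℤ) v.primeFactorsList.prod
        = (v.primeFactorsList.map fun q => jacobiSym (p : ℤ) q).prod :=
      jacobiSym.list_prod_right fun q hq => (Nat.prime_of_mem_primeFactorsList hq).ne_zero
    rw [Nat.prod_primeFactorsList hv0] at h1
    rw [h1]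
    apply List.prod_eq_one
    intro x hx
    obtain ⟨q, hq, rfl⟩ := List.mem_map.1 hx
    exact hq1 q hq
  have hJ2 := jacobiSym.quadratic_reciprocity_three_mod_four hp3 hv4
  have hJ3 : jacobiSym (v : ℤ) p = 1 := by
    have h1 : ((v : ℕ) : ℤ) % (p : ℕ) = (1 : ℤ) % (p : ℕ) := by
      have h2 : (n ^ 2 + n + 1) % p = 1 % p := by
        have h3 : p ∣ n ^ 2 + n := Dvd.dvd.add (dvd_pow hpn (by norm_num)) hpn
        obtain ⟨k, hk⟩ := h3
        rw [hk, Nat.mul_add_mod]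
      have h4 : ((v : ℕ) : ℤ) % (p : ℕ) = ((v % p : ℕ) : ℤ) := by push_cast; rfl
      rw [h4, hv, h2]
      push_cast
      rfl
    rw [jacobiSym.mod_left' h1, jacobiSym.one_left]
  rw [hJ1, hJ3] at hJ2
  norm_num at hJ2

end Pool.Agent.H37.PPD
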