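import Pool.Agent.H37.PPD.G2
import Pool.Agent.H37.PPD.SU
import Pool.Agent.H37.PPD.EX

/-!
PPD CB: the triple sums with exceptional primes.

`case_B0` (p < t < q, p, t ∣ n, q ∣ v): count_gen2 with P = {p,t}, Q = {q}, a = t, b = c = q: exponent
   ll t + ll q + rs (A0 {q} t q) + 0 + (5/4)(ll y - ll q) = (5/4) ll y + ll t - (1/4) ll q + σ, σ = rs (A0 {q} t q) ≥ 0.
  q not exceptional (exceptional0): σ ≥ rs (A0 {q} 2 q) - rs (pr 2 t) ≥ (3/8) ll q - C - ll t - C, so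
   exp(-σ) ≤ exp(-(5/6)σ) ≤ C exp((5/6) ll t - (5/16) ll q)  (σ ≥ 0), and the term is
   ≤ K (x/(ptq)) exp(-(5/4) ll y) exp(-(1/6) ll t - (1/16) ll q), exp(-(1/6) ll t) ≤ C exp(-(1/12)(ll p + ll t));
   sum_rpow (1/12), (1/12), (1/16).
  q exceptional: drop σ: exp(-ll t) ≤ C exp(-(1/2)(ll p + ll t)), exp((1/4) ll q) ≤ C log q; sum_rpow (1/2) twice and ∑_{q∈E} log q/q ≤ C.
`case_B1` (q < t < p, p ∣ n, q, t ∣ v): P = {p}, Q = {q,t}, a = c = p, b = t: exponent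
   ll p + ll t + 2 rs (A1 {p} t p) + (5/4)(ll y - ll p); the same with exceptional1 (2 rs (A1 {p} 2 t) ≤ 2 rs((pr 2 t).filter(·%3=1)): the upper
   bound needed is 2 rs (A1 {p} 2 t) ≤ 2 rs (pr 2 t) ≤ 2 ll t + C; then use exponent θ with exp(-σ) ≤ exp(-θσ), σ = 2 rs (A1 {p} t p) ≥ (3/8) ll p - C - 2 ll t:
   this needs 2θ < 1 and (3/8)θ > 1/4, impossible; instead use the sharper bound 2 rs ((pr 2 t).filter (·%3=1)) ≤ ll t + C, which follows from
   rs(%3=1) = (1/2)∑(1+chi3)/l and ∑ chi3(l)/l ≤ C (TW_sum with chi3_TW, M = 3), mertens_two.  Then θ = 5/6 works as before.)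
Note: q ∣ n²+n+1 implies q odd (2 < q) ; careful with ll 2 < 0 (constants).
-/

set_option autoImplicit false

namespace Pool.Agent.H37.PPD

open Finset Pool.Agent.H37.PPC

private theorem CB_cover {ι : Type*} (T : Finset ι) (S : Finset ℕ) (f : ι → ℕ → Prop)
    (g : ι → ℝ) (h : ∀ n ∈ S, ∃ i ∈ T, f i n)
    (hb : ∀ i ∈ T, ∀ S' ⊆ S, (∀ n ∈ S', f i n) → (S'.card : ℝ) ≤ g i) :
    (S.card : ℝ) ≤ ∑ i ∈ T, g i := by
  classical
  have h1 : S ⊆ T.biUnion fun i => S.filter (f i) := by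
    intro n hn
    obtain ⟨i, hi, hf⟩ := h n hn
    exact mem_biUnion.2 ⟨i, hi, mem_filter.2 ⟨hn, hf⟩⟩
  have h2 : (S.card : ℝ) ≤ ∑ i ∈ T, ((S.filter (f i)).card : ℝ) := by
    have h3 := (card_le_card h1).trans card_biUnion_le
    exact_mod_cast h3
  refine h2.trans (sum_le_sum fun i hi => ?_)
  exact hb i hi _ (filter_subset _ _) fun n hn => (mem_filter.1 hn).2

private theorem CB_ll_mono {a b : ℕ} (ha : 2 ≤ a) (hab : a ≤ b) : ll a ≤ ll b := by
  unfold ll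
  have h1 : (1 : ℝ) < a := by exact_mod_cast (by omega : 1 < a)
  have h2 : (a : ℝ) ≤ b := by exact_mod_cast hab
  exact Real.log_le_log (Real.log_pos h1) (Real.log_le_log (by linarith) h2)

private theorem CB_rs0 (Q : Finset ℕ) (a : ℕ) : rs (A0 Q a a) = 0 := by
  simp [rs, A0, pr]

private theorem CB_rs1 (Q : Finset ℕ) (a : ℕ) : rs (A1 Q a a) = 0 := by
  simp [rs, A1, pr]

private theorem CB_two {q n : ℕ} (hq : q.Prime) (h : q ∣ n ^ 2 + n + 1) : 2 < q := by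
  rcases hq.two_le.lt_or_eq with h2 | h2
  · exact h2
  · exfalso
    rw [← h2] at h
    have h3 : Even (n ^ 2 + n) := by
      have : n ^ 2 + n = n * (n + 1) := by ring
      rw [this]
      exact Nat.even_mul_succ_self n
    obtain ⟨m, hm⟩ := h3
    omega

private noncomputable def CB_w (θ : ℝ) (p : ℕ) : ℝ := Real.exp (-θ * ll p) / p

private theorem CB_w_nonneg (θ : ℝ) (p : ℕ) : 0 ≤ CB_w θ p :=
  div_nonneg (Real.exp_pos _).le (Nat.cast_nonneg _)

private theorem CB_mem {p y : ℕ} (hp : p.Prime) (h : p ≤ y) : p ∈ pr 2 (y + 1) :=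
  mem_pr.2 ⟨⟨hp.two_le, by omega⟩, hp⟩

private theorem CB_sum3 (A : Finset ℕ) (f g h : ℕ → ℝ) (a b c D : ℝ) (hf : ∀ i, 0 ≤ f i)
    (hg : ∀ i, 0 ≤ g i) (hh : ∀ i, 0 ≤ h i) (ha : ∑ i ∈ A, f i ≤ a) (hb : ∑ i ∈ A, g i ≤ b)
    (hc : ∑ i ∈ A, h i ≤ c) (hD : 0 ≤ D) :
    ∑ i ∈ A ×ˢ (A ×ˢ A), D * (f i.1 * (g i.2.1 * h i.2.2)) ≤ D * (a * (b * c)) := by
  rw [← mul_sum]
  refine mul_le_mul_of_nonneg_left ?_ hD
  rw [sum_product]
  simp only [sum_product, ← mul_sum, ← sum_mul]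
  have h1 : 0 ≤ ∑ i ∈ A, f i := sum_nonneg fun i _ => hf i
  have h2 : 0 ≤ ∑ i ∈ A, g i := sum_nonneg fun i _ => hg i
  have h3 : 0 ≤ ∑ i ∈ A, h i := sum_nonneg fun i _ => hh i
  exact mul_le_mul ha (mul_le_mul hb hc h3 (h2.trans hb)) (mul_nonneg h2 h3) (h1.trans ha)

open Classical in
private noncomputable def CB_e (E : Set ℕ) (q : ℕ) : ℝ := if q ∈ E then Real.log q / q else 0

private theorem CB_e_nonneg (E : Set ℕ) (q : ℕ) : 0 ≤ CB_e E q := by
  unfold CB_e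
  split_ifs
  · exact div_nonneg (Real.log_natCast_nonneg q) (Nat.cast_nonneg _)
  · exact le_rfl

private theorem CB_ll2 {r : ℕ} (hr : 2 ≤ r) :
    Real.exp ((1 / 4) * ll r) ≤ Real.exp (-(3 / 4) * ll 2) * Real.log r := by
  have h1 : (1 : ℝ) < r := by exact_mod_cast (by omega : 1 < r)
  have h2 : Real.log r = Real.exp (ll r) := by
    unfold ll
    rw [Real.exp_log (Real.log_pos h1)]
  rw [h2, ← Real.exp_add]
  apply Real.exp_le_exp.2
  have := CB_ll_mono le_rfl hr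
  linarith

open Classical in
private theorem CB_main (E : Set ℕ) (C0 K : ℝ) (hC0 : 0 < C0) (hK : 0 < K)
    (hE : ∀ w : ℕ, ∑ q ∈ (pr 2 w).filter (fun q => q ∈ E), Real.log q / q ≤ C0) :
    ∃ D : ℝ, 0 < D ∧ ∀ x y : ℕ, 2 ≤ y → ∀ S : Finset ℕ, ∀ f : ℕ × ℕ × ℕ → ℕ → Prop,
      (∀ n ∈ S, ∃ i ∈ pr 2 (y + 1) ×ˢ (pr 2 (y + 1) ×ˢ pr 2 (y + 1)), f i n) →
      (∀ s t r : ℕ, s ∈ pr 2 (y + 1) → t ∈ pr 2 (y + 1) → r ∈ pr 2 (y + 1) →
        ∀ S' ⊆ S, S'.Nonempty → (∀ n ∈ S', f (s, (t, r)) n) → s < t ∧ t < r ∧ ∃ σ : ℝ, 0 ≤ σ ∧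
          (r ∉ E → (3 / 8) * ll r - ll t - C0 ≤ σ) ∧
          (S'.card : ℝ) ≤ K * (x / ((s * t * r : ℕ) : ℝ)) *
            Real.exp (-(ll t + ll r + σ + (5 / 4) * (ll y - ll r)))) →
      (S.card : ℝ) ≤ D * x * Real.exp (-(5 / 4) * ll y) := by
  obtain ⟨C1, hC1, h12⟩ := sum_rpow (1 / 12) (by norm_num)
  obtain ⟨C2, hC2, h16⟩ := sum_rpow (1 / 16) (by norm_num)
  obtain ⟨C3, hC3, hh⟩ := sum_rpow (1 / 2) (by norm_num)
  refine ⟨K * (Real.exp ((5 / 6) * C0) * (C1 * (C1 * C2)) +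
    Real.exp (-(3 / 4) * ll 2) * (C3 * (C3 * C0))), by positivity, ?_⟩
  intro x y hy S f hcov hbd
  have hq0 : 0 ≤ K * x * Real.exp (-(5 / 4) * ll y) := by positivity
  have h1 := CB_cover (pr 2 (y + 1) ×ˢ (pr 2 (y + 1) ×ˢ pr 2 (y + 1))) S f
    (fun i => (K * x * Real.exp (-(5 / 4) * ll y)) * Real.exp ((5 / 6) * C0) *
      (CB_w (1 / 12) i.1 * (CB_w (1 / 12) i.2.1 * CB_w (1 / 16) i.2.2)) +
      (K * x * Real.exp (-(5 / 4) * ll y)) * Real.exp (-(3 / 4) * ll 2) *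
      (CB_w (1 / 2) i.1 * (CB_w (1 / 2) i.2.1 * CB_e E i.2.2))) hcov
    (by
      rintro ⟨s, t, r⟩ hi S' hS' hf
      obtain ⟨hs', htr⟩ := mem_product.1 hi
      obtain ⟨ht', hr'⟩ := mem_product.1 htr
      simp only at hs' ht' hr' hf ⊢
      have hA0 : 0 ≤ (K * x * Real.exp (-(5 / 4) * ll y)) * Real.exp ((5 / 6) * C0) *
          (CB_w (1 / 12) s * (CB_w (1 / 12) t * CB_w (1 / 16) r)) := by
        have := CB_w_nonneg (1 / 12) s
        have := CB_w_nonneg (1 / 12) t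
        have := CB_w_nonneg (1 / 16) r
        positivity
      have hB0 : 0 ≤ (K * x * Real.exp (-(5 / 4) * ll y)) * Real.exp (-(3 / 4) * ll 2) *
          (CB_w (1 / 2) s * (CB_w (1 / 2) t * CB_e E r)) := by
        have := CB_w_nonneg (1 / 2) s
        have := CB_w_nonneg (1 / 2) t
        have := CB_e_nonneg E r
        positivity
      rcases S'.eq_empty_or_nonempty with h0 | hne
      · rw [h0, card_empty, Nat.cast_zero]; exact add_nonneg hA0 hB0
      obtain ⟨hst, htr', σ, hσ, hσE, hcard⟩ := hbd s t r hs' ht' hr' S' hS' hne hf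
      obtain ⟨⟨hs2, hsy⟩, hs⟩ := mem_pr.1 hs'
      obtain ⟨⟨ht2, hty⟩, ht⟩ := mem_pr.1 ht'
      obtain ⟨⟨hr2, hry⟩, hr⟩ := mem_pr.1 hr'
      have e1 : ll s ≤ ll t := CB_ll_mono hs2 hst.le
      have e2 : ll t ≤ ll r := CB_ll_mono ht2 htr'.le
      have hs0 : (0 : ℝ) < s := by exact_mod_cast hs.pos
      have ht0 : (0 : ℝ) < t := by exact_mod_cast ht.pos
      have hr0 : (0 : ℝ) < r := by exact_mod_cast hr.pos
      refine hcard.trans ?_
      by_cases hrE : r ∈ E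
      · refine le_trans ?_ (le_add_of_nonneg_left hA0)
        have e4 : Real.exp (-(ll t + ll r + σ + (5 / 4) * (ll y - ll r))) ≤
            Real.exp (-(5 / 4) * ll y) * (Real.exp (-(1 / 2) * ll s) *
              (Real.exp (-(1 / 2) * ll t) * (Real.exp (-(3 / 4) * ll 2) * Real.log r))) := by
          calc Real.exp (-(ll t + ll r + σ + (5 / 4) * (ll y - ll r)))
              ≤ Real.exp (-(5 / 4) * ll y) * (Real.exp (-(1 / 2) * ll s) *
                (Real.exp (-(1 / 2) * ll t) * Real.exp ((1 / 4) * ll r))) := by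
                rw [← Real.exp_add, ← Real.exp_add, ← Real.exp_add]
                apply Real.exp_le_exp.2
                linarith
            _ ≤ _ := by
                have := CB_ll2 hr2
                gcongr
        calc K * (x / ((s * t * r : ℕ) : ℝ)) *
              Real.exp (-(ll t + ll r + σ + (5 / 4) * (ll y - ll r)))
            ≤ K * (x / ((s * t * r : ℕ) : ℝ)) * (Real.exp (-(5 / 4) * ll y) *
              (Real.exp (-(1 / 2) * ll s) * (Real.exp (-(1 / 2) * ll t) *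
                (Real.exp (-(3 / 4) * ll 2) * Real.log r)))) :=
              mul_le_mul_of_nonneg_left e4 (by positivity)
          _ = _ := by
              unfold CB_w CB_e
              rw [if_pos hrE]
              push_cast
              field_simp
      · refine le_trans ?_ (le_add_of_nonneg_right hB0)
        have e3 := hσE hrE
        have e4 : Real.exp (-(ll t + ll r + σ + (5 / 4) * (ll y - ll r))) ≤
            Real.exp (-(5 / 4) * ll y) * (Real.exp ((5 / 6) * C0) * (Real.exp (-(1 / 12) * ll s) *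
              (Real.exp (-(1 / 12) * ll t) * Real.exp (-(1 / 16) * ll r)))) := by
          rw [← Real.exp_add, ← Real.exp_add, ← Real.exp_add, ← Real.exp_add]
          apply Real.exp_le_exp.2
          linarith
        calc K * (x / ((s * t * r : ℕ) : ℝ)) *
              Real.exp (-(ll t + ll r + σ + (5 / 4) * (ll y - ll r)))
            ≤ K * (x / ((s * t * r : ℕ) : ℝ)) * (Real.exp (-(5 / 4) * ll y) *
              (Real.exp ((5 / 6) * C0) * (Real.exp (-(1 / 12) * ll s) *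
              (Real.exp (-(1 / 12) * ll t) * Real.exp (-(1 / 16) * ll r))))) :=
              mul_le_mul_of_nonneg_left e4 (by positivity)
          _ = _ := by
              unfold CB_w
              push_cast
              field_simp)
  refine h1.trans ?_
  rw [sum_add_distrib]
  have hsE : ∑ i ∈ pr 2 (y + 1), CB_e E i ≤ C0 := by
    unfold CB_e
    rw [← sum_filter]
    exact hE (y + 1)
  have g1 := CB_sum3 (pr 2 (y + 1)) (CB_w (1 / 12)) (CB_w (1 / 12)) (CB_w (1 / 16)) C1 C1 C2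
    ((K * x * Real.exp (-(5 / 4) * ll y)) * Real.exp ((5 / 6) * C0)) (CB_w_nonneg _)
    (CB_w_nonneg _) (CB_w_nonneg _) (h12 _) (h12 _) (h16 _) (by positivity)
  have g2 := CB_sum3 (pr 2 (y + 1)) (CB_w (1 / 2)) (CB_w (1 / 2)) (CB_e E) C3 C3 C0
    ((K * x * Real.exp (-(5 / 4) * ll y)) * Real.exp (-(3 / 4) * ll 2)) (CB_w_nonneg _)
    (CB_w_nonneg _) (CB_e_nonneg E) (hh _) (hh _) hsE (by positivity)
  refine (add_le_add g1 g2).trans (le_of_eq ?_)
  ring

private theorem CB_rs_mono {A B : Finset ℕ} (h : A ⊆ B) : rs A ≤ rs B := by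
  unfold rs
  exact sum_le_sum_of_subset_of_nonneg h fun i _ _ => by positivity

private theorem CB_rs_nonneg (A : Finset ℕ) : 0 ≤ rs A := by
  unfold rs
  exact sum_nonneg fun i _ => by positivity

private theorem CB_rs_union (A B : Finset ℕ) : rs (A ∪ B) ≤ rs A + rs B := by
  unfold rs
  rw [← sum_union_inter]
  exact le_add_of_nonneg_right (sum_nonneg fun i _ => by positivity)

private theorem CB_pr (a b c l : ℕ) (h : l ∈ pr a c) : l ∈ pr a b ∨ l ∈ pr b c := by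
  rw [mem_pr] at h
  rw [mem_pr, mem_pr]
  rcases lt_or_ge l b with h1 | h1
  · exact Or.inl ⟨⟨h.1.1, h1⟩, h.2⟩
  · exact Or.inr ⟨⟨h1, h.1.2⟩, h.2⟩

private theorem CB_A0 (Q : Finset ℕ) (t q : ℕ) :
    rs (A0 Q 2 q) ≤ rs (pr 2 t) + rs (A0 Q t q) := by
  refine le_trans (CB_rs_mono ?_) (CB_rs_union _ _)
  intro l hl
  unfold A0 at hl ⊢
  rw [mem_filter] at hl
  rcases CB_pr 2 t q l hl.1 with h | h
  · exact mem_union_left _ h
  · exact mem_union_right _ (mem_filter.2 ⟨h, hl.2⟩)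

private theorem CB_A1 (P : Finset ℕ) (t p : ℕ) :
    rs (A1 P 2 p) ≤ rs ((pr 2 t).filter (fun l => l % 3 = 1)) + rs (A1 P t p) := by
  refine le_trans (CB_rs_mono ?_) (CB_rs_union _ _)
  intro l hl
  unfold A1 at hl ⊢
  rw [mem_filter] at hl
  rcases CB_pr 2 t p l hl.1 with h | h
  · exact mem_union_left _ (mem_filter.2 ⟨h, hl.2.1⟩)
  · exact mem_union_right _ (mem_filter.2 ⟨h, hl.2⟩)

theorem case_B0 : ∃ K : ℝ, 0 < K ∧ ∃ s : ℕ, 0 < s ∧ ∀ x y : ℕ, 2 ≤ y → y ^ (s + 3) ≤ x →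
    ∀ S : Finset ℕ, (∀ n ∈ S, 1 ≤ n ∧ n ≤ x ∧ Good n ∧
      ∃ p q t : ℕ, p.Prime ∧ q.Prime ∧ t.Prime ∧ p < t ∧ t < q ∧ q ≤ y ∧ p ∣ n ∧ t ∣ n ∧
        q ∣ n ^ 2 + n + 1 ∧ (∀ l ∈ pr 2 t, l ≠ p → ¬ l ∣ n) ∧
        (∀ l ∈ pr 2 q, ¬ l ∣ n ^ 2 + n + 1)) →
    (S.card : ℝ) ≤ K * x * Real.exp (-(5 / 4) * ll y) := by
  obtain ⟨K, hK, s, hs, hcount⟩ := count_gen2
  obtain ⟨E, C, hC, hE, hex⟩ := exceptional0
  obtain ⟨C', hC', hmer⟩ := mertens_two
  obtain ⟨D, hD, hmain⟩ := CB_main E (C + C' + |ll 2|) K (by positivity) hK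
    (fun w => (hE w).trans (by have := abs_nonneg (ll 2); linarith))
  refine ⟨D, hD, s, hs, fun x y hy hxy S hS => ?_⟩
  refine hmain x y hy S (fun i n => i.1 < i.2.1 ∧ i.2.1 < i.2.2 ∧ i.1 ∣ n ∧ i.2.1 ∣ n ∧
      i.2.2 ∣ n ^ 2 + n + 1 ∧ (∀ l ∈ pr 2 i.2.1, l ≠ i.1 → ¬ l ∣ n) ∧
      (∀ l ∈ pr 2 i.2.2, ¬ l ∣ n ^ 2 + n + 1)) ?_ ?_
  · intro n hn
    obtain ⟨_, _, _, p, q, t, hp, hq, ht, hpt, htq, hqy, hpn, htn, hqn, h3, h4⟩ := hS n hn
    exact ⟨(p, (t, q)), mem_product.2 ⟨CB_mem hp (hpt.le.trans (htq.le.trans hqy)),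
      mem_product.2 ⟨CB_mem ht (htq.le.trans hqy), CB_mem hq hqy⟩⟩, hpt, htq, hpn, htn, hqn,
      h3, h4⟩
  · intro p t q hp' ht' hq' S' hS' hne hf
    simp only at hf
    obtain ⟨⟨hp2, hpy⟩, hp⟩ := mem_pr.1 hp'
    obtain ⟨⟨hq2, hqy⟩, hq⟩ := mem_pr.1 hq'
    obtain ⟨⟨ht2, hty⟩, ht⟩ := mem_pr.1 ht'
    obtain ⟨n₀, hn₀⟩ := hne
    obtain ⟨hpt, htq, _, _, hqn₀, _, _⟩ := hf n₀ hn₀
    have hq3 : 2 < q := CB_two hq hqn₀
    have hne : p ≠ t := hpt.ne
    refine ⟨hpt, htq, rs (A0 {q} t q), CB_rs_nonneg _, ?_, ?_⟩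
    · intro hqE
      have h1 := hex q hq hq3 hqE
      have h2 := CB_A0 {q} t q
      have h3 := (abs_le.1 (hmer 2 t le_rfl ht2)).2
      have h4 : rs (pr 2 t) ≤ ll t - ll 2 + C' := by
        unfold rs ll
        push_cast at h3 ⊢
        linarith
      have h5 := neg_abs_le (ll 2)
      linarith
    · have h2 := hcount x y hy hxy {p, t} {q} (insert_nonempty _ _) (singleton_nonempty _)
        (by
          intro r hr
          rcases mem_insert.1 hr with rfl | hr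
          · exact hp
          · rw [mem_singleton.1 hr]; exact ht)
        (by simpa using ⟨hq, hq3⟩) (by rw [card_pair hne, card_singleton]) t q q
        ht2 hq2 htq.le le_rfl (by omega)
        (by
          intro r hr
          rcases mem_insert.1 hr with rfl | hr
          · omega
          · rw [mem_singleton.1 hr]; omega)
        (by simp only [mem_singleton, forall_eq]; omega) S'
        (fun n hn => by
          obtain ⟨_, _, h4, h5, h6, h7, h8⟩ := hf n hn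
          obtain ⟨h9, h10, h11, _⟩ := hS n (hS' hn)
          refine ⟨h9, h10, h11, ?_, by simpa using h6, ?_, ?_⟩
          · intro r hr
            rcases mem_insert.1 hr with rfl | hr
            · exact h4
            · rw [mem_singleton.1 hr]; exact h5
          · intro l hl hlp
            exact h7 l hl (fun h => hlp (by rw [h]; exact mem_insert_self _ _))
          · intro l hl _
            exact h8 l hl)
      refine h2.trans (le_of_eq ?_)
      rw [CB_rs1, prod_pair hne, prod_singleton, card_pair hne, card_singleton]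
      congr 2
      ring

theorem case_B1 : ∃ K : ℝ, 0 < K ∧ ∃ s : ℕ, 0 < s ∧ ∀ x y : ℕ, 2 ≤ y → y ^ (s + 3) ≤ x →
    ∀ S : Finset ℕ, (∀ n ∈ S, 1 ≤ n ∧ n ≤ x ∧ Good n ∧
      ∃ p q t : ℕ, p.Prime ∧ q.Prime ∧ t.Prime ∧ q < t ∧ t < p ∧ p ≤ y ∧ p ∣ n ∧
        q ∣ n ^ 2 + n + 1 ∧ t ∣ n ^ 2 + n + 1 ∧ (∀ l ∈ pr 2 p, ¬ l ∣ n) ∧
        (∀ l ∈ pr 2 t, l ≠ q → ¬ l ∣ n ^ 2 + n + 1)) →
    (S.card : ℝ) ≤ K * x * Real.exp (-(5 / 4) * ll y) := by
  obtain ⟨K, hK, s, hs, hcount⟩ := count_gen2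
  obtain ⟨E, C, hC, hE, hex⟩ := exceptional1
  obtain ⟨C', hC', hmer⟩ := sum_mod3_upper
  obtain ⟨D, hD, hmain⟩ := CB_main E (C + C' + |ll 2|) K (by positivity) hK
    (fun w => (hE w).trans (by have := abs_nonneg (ll 2); linarith))
  refine ⟨D, hD, s, hs, fun x y hy hxy S hS => ?_⟩
  refine hmain x y hy S (fun i n => i.1 < i.2.1 ∧ i.2.1 < i.2.2 ∧ i.2.2 ∣ n ∧
      i.1 ∣ n ^ 2 + n + 1 ∧ i.2.1 ∣ n ^ 2 + n + 1 ∧ (∀ l ∈ pr 2 i.2.2, ¬ l ∣ n) ∧
      (∀ l ∈ pr 2 i.2.1, l ≠ i.1 → ¬ l ∣ n ^ 2 + n + 1)) ?_ ?_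
  · intro n hn
    obtain ⟨_, _, _, p, q, t, hp, hq, ht, hqt, htp, hpy, hpn, hqn, htn, h3, h4⟩ := hS n hn
    exact ⟨(q, (t, p)), mem_product.2 ⟨CB_mem hq (hqt.le.trans (htp.le.trans hpy)),
      mem_product.2 ⟨CB_mem ht (htp.le.trans hpy), CB_mem hp hpy⟩⟩, hqt, htp, hpn, hqn, htn,
      h3, h4⟩
  · intro q t p hq' ht' hp' S' hS' hne hf
    simp only at hf
    obtain ⟨⟨hp2, hpy⟩, hp⟩ := mem_pr.1 hp'
    obtain ⟨⟨hq2, hqy⟩, hq⟩ := mem_pr.1 hq'
    obtain ⟨⟨ht2, hty⟩, ht⟩ := mem_pr.1 ht'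
    obtain ⟨n₀, hn₀⟩ := hne
    obtain ⟨hqt, htp, _, hqn₀, htn₀, _, _⟩ := hf n₀ hn₀
    have hq3 : 2 < q := CB_two hq hqn₀
    have ht3 : 2 < t := CB_two ht htn₀
    have hne : q ≠ t := hqt.ne
    refine ⟨hqt, htp, 2 * rs (A1 {p} t p), mul_nonneg (by norm_num) (CB_rs_nonneg _), ?_, ?_⟩
    · intro hpE
      have h1 := hex p hp hpE
      have h2 := CB_A1 {p} t p
      have h3 := hmer 2 t le_rfl ht2
      have h5 := neg_abs_le (ll 2)
      linarith
    · have h2 := hcount x y hy hxy {p} {q, t} (singleton_nonempty _) (insert_nonempty _ _)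
        (by simpa using hp)
        (by
          intro r hr
          rcases mem_insert.1 hr with rfl | hr
          · exact ⟨hq, hq3⟩
          · rw [mem_singleton.1 hr]; exact ⟨ht, ht3⟩)
        (by rw [card_pair hne, card_singleton]) p t p
        hp2 ht2 le_rfl htp.le (by omega)
        (by simp only [mem_singleton, forall_eq]; omega)
        (by
          intro r hr
          rcases mem_insert.1 hr with rfl | hr
          · omega
          · rw [mem_singleton.1 hr]; omega) S'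
        (fun n hn => by
          obtain ⟨_, _, h4, h5, h6, h7, h8⟩ := hf n hn
          obtain ⟨h9, h10, h11, _⟩ := hS n (hS' hn)
          refine ⟨h9, h10, h11, by simpa using h4, ?_, ?_, ?_⟩
          · intro r hr
            rcases mem_insert.1 hr with rfl | hr
            · exact h5
            · rw [mem_singleton.1 hr]; exact h6
          · intro l hl _
            exact h7 l hl
          · intro l hl hlp
            exact h8 l hl (fun h => hlp (by rw [h]; exact mem_insert_self _ _)))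
      refine h2.trans (le_of_eq ?_)
      rw [CB_rs0, prod_pair hne, prod_singleton, card_pair hne, card_singleton]
      congr 2
      · congr 1
        push_cast
        ring
      · ring

end Pool.Agent.H37.PPD
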