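import Pool.Agent.H37.PPC.CC

/-!
PROJECT PPD (MP_e38f6a_co): sharp bound and structure of the orders of cyclic planar difference sets.
Definitions.  (`pr a b` = primes in [a,b), `Good n` = n ≥ 2, order of a cyclic plane, not a square, are in H37/PPC.)
-/

set_option autoImplicit false

namespace Pool.Agent.H37.PPD

open Finset Pool.Agent.H37.PPC

/-- `log log n` -/
noncomputable def ll (n : ℕ) : ℝ := Real.log (Real.log n)

/-- primes `l` in `[a,b)` with `(l/q) = -1` for some `q ∈ Q` -/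
def A0 (Q : Finset ℕ) (a b : ℕ) : Finset ℕ :=
  (pr a b).filter (fun l => ∃ q ∈ Q, jacobiSym (l : ℤ) q = -1)

/-- primes `l = 1 mod 3` in `[a,b)` with `(p/l) = -1` for some `p ∈ P` -/
def A1 (P : Finset ℕ) (a b : ℕ) : Finset ℕ :=
  (pr a b).filter (fun l => l % 3 = 1 ∧ ∃ p ∈ P, jacobiSym (p : ℤ) l = -1)

/-- sum of reciprocals -/
noncomputable def rs (A : Finset ℕ) : ℝ := ∑ l ∈ A, (1 : ℝ) / l

end Pool.Agent.H37.PPD
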