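import Pool.Agent.H37.PPD.Defs

/-!
PPD MO: second moments of short character sums, and the two families of characters.

`second_moment`: expand the square; diagonal ≤ N ∑ 1/l², off-diagonal terms ≤ (1/(l l')) 4 l l'.
`psi_prod`: l ≠ l' primes: m ↦ psi l m * psi l' m = psi (l l') m (jacobiSym.mul_left), TW with M = 4 l l' (psi_TW, ex_pos with T = {l,l'}).
`jac_prod`: l ≠ l' odd primes: m ↦ J(m|l) J(m|l') = J(m|ll'), periodic mod l l' with sum zero over a period (multiply by m₀ with J(m₀|l) = -1,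
 m₀ ≡ 1 mod l', coprime to ll'), so sums over Icc 1 N are ≤ l l' in absolute value.
-/

set_option autoImplicit false

namespace Pool.Agent.H37.PPD

open Finset Pool.Agent.H37.PPC

theorem second_moment (I : Finset ℕ) (χ : ℕ → ℕ → ℝ) (N : ℕ) (hI : ∀ l ∈ I, 1 ≤ l)
    (h1 : ∀ l ∈ I, ∀ m, |χ l m| ≤ 1)
    (h2 : ∀ l ∈ I, ∀ l' ∈ I, l ≠ l' → |∑ m ∈ Icc 1 N, χ l m * χ l' m| ≤ 4 * l * l') :
    ∑ m ∈ Icc 1 N, (∑ l ∈ I, χ l m / l) ^ 2 ≤ N * ∑ l ∈ I, (1 : ℝ) / (l : ℝ) ^ 2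
      + 4 * (I.card : ℝ) ^ 2 := by
  have e1 : ∑ m ∈ Icc 1 N, (∑ l ∈ I, χ l m / l) ^ 2
      = ∑ l ∈ I, ∑ l' ∈ I, (1 / ((l : ℝ) * l')) * ∑ m ∈ Icc 1 N, χ l m * χ l' m := by
    calc ∑ m ∈ Icc 1 N, (∑ l ∈ I, χ l m / l) ^ 2
        = ∑ m ∈ Icc 1 N, ∑ l ∈ I, ∑ l' ∈ I, (1 / ((l : ℝ) * l')) * (χ l m * χ l' m) := by
          refine sum_congr rfl fun m _ => ?_
          rw [sq, sum_mul_sum]
          refine sum_congr rfl fun l _ => sum_congr rfl fun l' _ => ?_
          rw [div_mul_div_comm]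
          ring
      _ = ∑ l ∈ I, ∑ l' ∈ I, ∑ m ∈ Icc 1 N, (1 / ((l : ℝ) * l')) * (χ l m * χ l' m) := by
          rw [sum_comm]
          exact sum_congr rfl fun l _ => sum_comm
      _ = _ := by
          refine sum_congr rfl fun l _ => sum_congr rfl fun l' _ => ?_
          rw [mul_sum]
  rw [e1]
  have e2 : ∀ l ∈ I, ∀ l' ∈ I, (1 / ((l : ℝ) * l')) * ∑ m ∈ Icc 1 N, χ l m * χ l' m
      ≤ (if l = l' then (N : ℝ) * (1 / (l : ℝ) ^ 2) else 0) + 4 := by
    intro l hl l' hl'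
    have hl0 : (0 : ℝ) < l := by exact_mod_cast hI l hl
    have hl0' : (0 : ℝ) < l' := by exact_mod_cast hI l' hl'
    by_cases h : l = l'
    · subst h
      rw [if_pos rfl]
      have h3 : ∑ m ∈ Icc 1 N, χ l m * χ l m ≤ N := by
        calc ∑ m ∈ Icc 1 N, χ l m * χ l m ≤ ∑ m ∈ Icc 1 N, (1 : ℝ) := by
              refine sum_le_sum fun m _ => ?_
              have h4 := h1 l hl m
              rw [← abs_mul_abs_self]
              nlinarith [abs_nonneg (χ l m)]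
          _ = N := by rw [sum_const, Nat.card_Icc, nsmul_eq_mul, mul_one, Nat.add_sub_cancel]
      have h5 : (1 / ((l : ℝ) * l)) * ∑ m ∈ Icc 1 N, χ l m * χ l m ≤ (1 / ((l : ℝ) * l)) * N :=
        mul_le_mul_of_nonneg_left h3 (by positivity)
      have h6 : (1 / ((l : ℝ) * l)) * N = (N : ℝ) * (1 / (l : ℝ) ^ 2) := by
        rw [sq]; ring
      linarith
    · rw [if_neg h, zero_add]
      have h3 := (le_abs_self _).trans (h2 l hl l' hl' h)
      calc (1 / ((l : ℝ) * l')) * ∑ m ∈ Icc 1 N, χ l m * χ l' m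
          ≤ (1 / ((l : ℝ) * l')) * (4 * l * l') := mul_le_mul_of_nonneg_left h3 (by positivity)
        _ = 4 := by field_simp
  calc ∑ l ∈ I, ∑ l' ∈ I, (1 / ((l : ℝ) * l')) * ∑ m ∈ Icc 1 N, χ l m * χ l' m
      ≤ ∑ l ∈ I, ∑ l' ∈ I, ((if l = l' then (N : ℝ) * (1 / (l : ℝ) ^ 2) else 0) + 4) :=
        sum_le_sum fun l hl => sum_le_sum fun l' hl' => e2 l hl l' hl'
    _ = ∑ l ∈ I, ((N : ℝ) * (1 / (l : ℝ) ^ 2) + (I.card : ℝ) * 4) := by
        refine sum_congr rfl fun l hl => ?_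
        rw [sum_add_distrib, sum_ite_eq, if_pos hl, sum_const, nsmul_eq_mul]
    _ = N * ∑ l ∈ I, (1 : ℝ) / (l : ℝ) ^ 2 + 4 * (I.card : ℝ) ^ 2 := by
        rw [sum_add_distrib, ← mul_sum, sum_const, nsmul_eq_mul]
        ring

theorem psi_prod (l l' N : ℕ) (hl : l.Prime) (hl' : l'.Prime) (hne : l ≠ l') :
    |∑ m ∈ Icc 1 N, psi (l : ℤ) m * psi (l' : ℤ) m| ≤ 4 * l * l' := by
  have h1 : ∀ m ∈ Icc 1 N, psi (l : ℤ) m * psi (l' : ℤ) m = psi ((l * l' : ℕ) : ℤ) m := by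
    intro m _
    unfold psi
    by_cases hm : Odd m
    · rw [if_pos hm, if_pos hm, if_pos hm, Nat.cast_mul, jacobiSym.mul_left]
      push_cast
      ring
    · rw [if_neg hm, if_neg hm, if_neg hm, mul_zero]
  rw [sum_congr rfl h1]
  have h2 := ex_pos {l, l'} ⟨l, by simp⟩ (by
    intro p hp
    rw [mem_insert, mem_singleton] at hp
    rcases hp with rfl | rfl
    · exact hl
    · exact hl')
  rw [prod_pair hne] at h2
  have h0 : ((l * l' : ℕ) : ℤ) ≠ 0 := by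
    exact_mod_cast Nat.mul_ne_zero hl.ne_zero hl'.ne_zero
  have h3 := (psi_TW ((l * l' : ℕ) : ℤ) h0 h2).bd N
  refine h3.trans (le_of_eq ?_)
  rw [Int.natAbs_natCast]
  push_cast
  ring

private theorem mo_shift (f : ℕ → ℝ) (n : ℕ) (hf : ∀ m, f (m + n) = f m) (a : ℕ) :
    ∑ m ∈ range n, f (a + m) = ∑ m ∈ range n, f m := by
  induction a with
  | zero => simp
  | succ a ih =>
    have h1 := sum_range_succ (fun m => f (a + m)) n
    have h2 := sum_range_succ' (fun m => f (a + m)) n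
    have h3 : ∑ m ∈ range n, f (a + 1 + m) = ∑ m ∈ range n, f (a + (m + 1)) :=
      sum_congr rfl fun m _ => by rw [add_assoc, add_comm 1 m]
    rw [h3, ← ih]
    have h4 := hf a
    rw [h1] at h2
    rw [add_zero] at h2
    linarith

private theorem mo_periodic (f : ℕ → ℝ) (n : ℕ) (hn : 0 < n) (hf : ∀ m, f (m + n) = f m)
    (h0 : ∑ m ∈ range n, f m = 0) (h1 : ∀ m, |f m| ≤ 1) (N : ℕ) :
    |∑ m ∈ Icc 1 N, f m| ≤ n := by
  induction N using Nat.strong_induction_on with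
  | _ N ih =>
    rcases Nat.lt_or_ge N n with h | h
    · calc |∑ m ∈ Icc 1 N, f m| ≤ ∑ m ∈ Icc 1 N, |f m| := abs_sum_le_sum_abs _ _
        _ ≤ ∑ m ∈ Icc 1 N, (1 : ℝ) := sum_le_sum fun m _ => h1 m
        _ = N := by rw [sum_const, Nat.card_Icc, nsmul_eq_mul, mul_one, Nat.add_sub_cancel]
        _ ≤ n := by exact_mod_cast h.le
    · obtain ⟨M, rfl⟩ : ∃ M, N = M + n := ⟨N - n, by omega⟩
      have h2 : Icc 1 (M + n) = Icc 1 M ∪ (range n).image (fun m => M + 1 + m) := by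
        ext x
        rw [mem_union, mem_Icc, mem_Icc, mem_image]
        constructor
        · rintro ⟨h3, h4⟩
          by_cases h5 : x ≤ M
          · exact Or.inl ⟨h3, h5⟩
          · exact Or.inr ⟨x - (M + 1), mem_range.2 (by omega), by omega⟩
        · rintro (⟨h3, h4⟩ | ⟨m, hm, rfl⟩)
          · exact ⟨h3, by omega⟩
          · rw [mem_range] at hm
            omega
      have h3 : Disjoint (Icc 1 M) ((range n).image (fun m => M + 1 + m)) := by
        rw [disjoint_left]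
        intro x h4 h5
        rw [mem_Icc] at h4
        rw [mem_image] at h5
        obtain ⟨m, _, hm⟩ := h5
        omega
      rw [h2, sum_union h3, sum_image (by intro a _ b _ hab; simpa using hab),
        mo_shift f n hf (M + 1), h0, add_zero]
      exact ih M (by omega)

private theorem mo_zmod (n : ℕ) [NeZero n] (F : ZMod n → ℝ) :
    ∑ m ∈ range n, F (m : ZMod n) = ∑ x : ZMod n, F x := by
  symm
  refine sum_bij (fun x _ => x.val) ?_ ?_ ?_ ?_
  · intro x _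
    exact mem_range.2 (ZMod.val_lt x)
  · intro x _ y _ h
    exact ZMod.val_injective n h
  · intro m hm
    exact ⟨(m : ZMod n), mem_univ _, ZMod.val_cast_of_lt (mem_range.1 hm)⟩
  · intro x _
    rw [ZMod.natCast_zmod_val]

theorem jac_prod (l l' N : ℕ) (hl : l.Prime) (hl' : l'.Prime) (hne : l ≠ l') (h2 : 2 < l)
    (h2' : 2 < l') :
    |∑ m ∈ Icc 1 N, (jacobiSym (m : ℤ) l : ℝ) * (jacobiSym (m : ℤ) l' : ℝ)| ≤ 4 * l * l' := by
  have : Fact l.Prime := ⟨hl⟩
  have : Fact l'.Prime := ⟨hl'⟩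
  have hn : 0 < l * l' := Nat.mul_pos hl.pos hl'.pos
  have : NeZero (l * l') := ⟨hn.ne'⟩
  have hcop : Nat.Coprime l l' := (Nat.coprime_primes hl hl').2 hne
  let e := ZMod.chineseRemainder hcop
  have hJ : ∀ (p : ℕ) [Fact p.Prime] (m : ℕ),
      jacobiSym (m : ℤ) p = quadraticChar (ZMod p) (m : ZMod p) := by
    intro p _ m
    rw [← jacobiSym.legendreSym.to_jacobiSym, legendreSym, Int.cast_natCast]
  have hq1 : ∀ (p : ℕ) [Fact p.Prime] (x : ZMod p), |((quadraticChar (ZMod p) x : ℤ) : ℝ)| ≤ 1 := by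
    intro p _ x
    by_cases hx : x = 0
    · rw [hx]; simp
    · rcases quadraticChar_dichotomy hx with h | h <;> rw [h] <;> simp
  have hsum : ∀ (p : ℕ) [Fact p.Prime], 2 < p →
      ∑ x : ZMod p, ((quadraticChar (ZMod p) x : ℤ) : ℝ) = 0 := by
    intro p _ hp
    have h3 : ringChar (ZMod p) ≠ 2 := by
      rw [ZMod.ringChar_zmod_n]; omega
    have h4 := quadraticChar_sum_zero h3
    have h5 : ((∑ x : ZMod p, quadraticChar (ZMod p) x : ℤ) : ℝ) = 0 := by
      rw [h4]; simp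
    push_cast at h5
    exact h5
  have hper := mo_periodic
    (fun m => (jacobiSym (m : ℤ) l : ℝ) * (jacobiSym (m : ℤ) l' : ℝ)) (l * l') hn ?_ ?_ ?_ N
  · refine hper.trans ?_
    push_cast
    have : (0 : ℝ) ≤ l * l' := by positivity
    nlinarith
  · intro m
    show (jacobiSym ((m + l * l' : ℕ) : ℤ) l : ℝ) * (jacobiSym ((m + l * l' : ℕ) : ℤ) l' : ℝ) = _
    rw [hJ, hJ, hJ, hJ]
    have e1 : ((m + l * l' : ℕ) : ZMod l) = (m : ZMod l) := by
      push_cast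
      rw [ZMod.natCast_self, zero_mul, add_zero]
    have e2 : ((m + l * l' : ℕ) : ZMod l') = (m : ZMod l') := by
      push_cast
      rw [ZMod.natCast_self, mul_zero, add_zero]
    rw [e1, e2]
  · have h3 : ∀ m ∈ range (l * l'), (jacobiSym (m : ℤ) l : ℝ) * (jacobiSym (m : ℤ) l' : ℝ)
        = (fun x : ZMod (l * l') => ((quadraticChar (ZMod l) (e x).1 : ℤ) : ℝ)
          * ((quadraticChar (ZMod l') (e x).2 : ℤ) : ℝ)) (m : ZMod (l * l')) := by
      intro m _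
      show _ = ((quadraticChar (ZMod l) (e (m : ZMod (l * l'))).1 : ℤ) : ℝ)
          * ((quadraticChar (ZMod l') (e (m : ZMod (l * l'))).2 : ℤ) : ℝ)
      rw [map_natCast, Prod.fst_natCast, Prod.snd_natCast, hJ, hJ]
    refine (sum_congr rfl h3).trans ((mo_zmod (l * l') (fun x : ZMod (l * l') =>
      ((quadraticChar (ZMod l) (e x).1 : ℤ) : ℝ)
        * ((quadraticChar (ZMod l') (e x).2 : ℤ) : ℝ))).trans ?_)
    have h5 : ∑ x : ZMod (l * l'), ((quadraticChar (ZMod l) (e x).1 : ℤ) : ℝ)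
        * ((quadraticChar (ZMod l') (e x).2 : ℤ) : ℝ)
        = ∑ y : ZMod l × ZMod l', ((quadraticChar (ZMod l) y.1 : ℤ) : ℝ)
        * ((quadraticChar (ZMod l') y.2 : ℤ) : ℝ) :=
      Fintype.sum_equiv e.toEquiv _ _ (fun x => rfl)
    rw [h5]
    rw [Fintype.sum_prod_type]
    simp only
    rw [← Finset.sum_mul_sum, hsum l h2, zero_mul]
  · intro m
    show |(jacobiSym (m : ℤ) l : ℝ) * (jacobiSym (m : ℤ) l' : ℝ)| ≤ 1
    rw [hJ, hJ, abs_mul]
    have h3 := hq1 l (m : ZMod l)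
    have h4 := hq1 l' (m : ZMod l')
    exact mul_le_one₀ h3 (abs_nonneg _) h4

end Pool.Agent.H37.PPD
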