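import Pool.Agent.H37.PPD.ST

/-!
PPD SH: the sharp bound `N(x) ≤ C x / log x`.
-/

set_option autoImplicit false

namespace Pool.Agent.H37.PPD

open Finset Pool.Agent.H37.PPC

open Classical in
theorem sharp_main : ∃ C : ℝ, 0 < C ∧ ∀ x : ℕ, 2 ≤ x →
    (((Icc 2 x).filter (fun n => IsOrder n)).card : ℝ) ≤ C * x / Real.log x := by
  obtain ⟨CS, hCS, HS⟩ := structure_main (1 / 2) (by norm_num)
  obtain ⟨s5, hs5, K5, hK5, H5⟩ := case_v
  obtain ⟨s6, hs6, K6, hK6, H6⟩ := case_vi
  set T : ℕ := s5 + s6 + 2 with hT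
  have hTpos : (0 : ℝ) < T := by exact_mod_cast (by omega : 0 < T)
  set K : ℝ := 2 * CS + (K5 + K6) * (2 * T) + 2 + T with hK
  have hK0 : 0 < K := by positivity
  refine ⟨K, hK0, ?_⟩
  intro x hx
  have hx0 : (0 : ℝ) < x := by exact_mod_cast (by omega : 0 < x)
  have hx1 : (1 : ℝ) ≤ x := by exact_mod_cast (by omega : 1 ≤ x)
  have hlx : 0 < Real.log x := Real.log_pos (by exact_mod_cast (by omega : 1 < x))
  set G := (Icc 2 x).filter (fun n => IsOrder n) with hG
  have hGx : (G.card : ℝ) ≤ x := by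
    have : G.card ≤ x := by
      calc _ ≤ (Icc 2 x).card := card_filter_le _ _
        _ ≤ x := by rw [Nat.card_Icc]; omega
    exact_mod_cast this
  by_cases hxt : x < 2 ^ T
  · have h1 : Real.log x ≤ T := by
      have h2 : Real.log x ≤ Real.log (2 ^ T) := Real.log_le_log hx0 (by exact_mod_cast hxt.le)
      rw [Real.log_pow] at h2
      have h3 := Real.log_two_lt_d9
      nlinarith
    have h3 : Real.log x ≤ K := by
      have : 0 ≤ 2 * CS + (K5 + K6) * (2 * T) := by positivity
      linarith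
    rw [le_div_iff₀ hlx]
    calc (G.card : ℝ) * Real.log x ≤ x * K := mul_le_mul hGx h3 hlx.le hx0.le
      _ = K * x := by ring
  · push Not at hxt
    obtain ⟨y, hy, hyx, hxy⟩ := exists_root T x (by omega) hxt
    have hpow : ∀ s : ℕ, s ≤ T → y ^ s ≤ x := fun s hs =>
      (Nat.pow_le_pow_right (by omega) hs).trans hyx
    have hexp := exp_ll_le (by omega : 1 ≤ T) hy hyx hxy 1 (by norm_num)
    rw [Real.rpow_one, Real.rpow_one, neg_mul, one_mul] at hexp
    set GS := (Icc 2 x).filter (fun n => IsOrder n ∧ ¬ n.Prime ∧ (n % 4 = 1 ∨ n % 4 = 2 ∨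
      ∃ q : ℕ, q.Prime ∧ q ∣ n ^ 2 + n + 1 ∧ (q : ℝ) ≤ (x : ℝ) ^ (1 - 1 / 2 : ℝ))) with hGS
    set G5 := G.filter (fun n => NP y (n ^ 2 + n + 1)) with hG5
    set G6 := G.filter (fun n => NP y n) with hG6
    have hcov : G ⊆ GS ∪ (G5 ∪ (G6 ∪ Icc 1 y)) := by
      intro n hn
      have hn' := hn
      rw [hG, mem_filter] at hn'
      have hnI := mem_Icc.1 hn'.1
      simp only [mem_union]
      by_cases hpr : n.Prime
      · right; right
        by_cases hny : n ≤ y
        · right; exact mem_Icc.2 ⟨by omega, hny⟩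
        · left
          refine mem_filter.2 ⟨hn, ?_⟩
          intro l hl hln
          have h1 := mem_pr.1 hl
          have := (Nat.prime_dvd_prime_iff_eq h1.2 hpr).1 hln
          omega
      · by_cases hq : ∃ q : ℕ, q.Prime ∧ q ∣ n ^ 2 + n + 1 ∧ (q : ℝ) ≤ (x : ℝ) ^ (1 - 1 / 2 : ℝ)
        · left
          exact mem_filter.2 ⟨hn'.1, hn'.2, hpr, Or.inr (Or.inr hq)⟩
        · right; left
          refine mem_filter.2 ⟨hn, ?_⟩
          intro l hl hln
          have h1 := mem_pr.1 hl
          apply hq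
          refine ⟨l, h1.2, hln, ?_⟩
          have h2 : l ^ 2 ≤ x := by
            calc l ^ 2 ≤ y ^ 2 := Nat.pow_le_pow_left (by omega) 2
              _ ≤ x := hpow 2 (by omega)
          have h3 : ((l : ℝ)) ^ 2 ≤ x := by exact_mod_cast h2
          calc (l : ℝ) = Real.sqrt ((l : ℝ) ^ 2) := (Real.sqrt_sq (by positivity)).symm
            _ ≤ Real.sqrt x := Real.sqrt_le_sqrt h3
            _ = (x : ℝ) ^ (1 - 1 / 2 : ℝ) := by rw [Real.sqrt_eq_rpow]; norm_num
    have hc : G.card ≤ GS.card + (G5.card + (G6.card + y)) := by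
      refine (card_le_card hcov).trans ((card_union_le _ _).trans ?_)
      apply Nat.add_le_add_left
      refine (card_union_le _ _).trans ?_
      apply Nat.add_le_add_left
      refine (card_union_le _ _).trans ?_
      apply Nat.add_le_add_left
      rw [Nat.card_Icc]
      omega
    have hc' : (G.card : ℝ) ≤ GS.card + (G5.card + (G6.card + y)) := by exact_mod_cast hc
    have hbase : ∀ n ∈ G, 1 ≤ n ∧ n ≤ x := by
      intro n hn
      rw [hG, mem_filter, mem_Icc] at hn
      exact ⟨by omega, hn.1.2⟩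
    have e5 := H5 x y hy (hpow _ (by omega)) G5 (fun n hn => by
      rw [hG5, mem_filter] at hn
      obtain ⟨a1, a2⟩ := hbase n hn.1
      exact ⟨a1, a2, hn.2⟩)
    have e6 := H6 x y hy (hpow _ (by omega)) G6 (fun n hn => by
      rw [hG6, mem_filter] at hn
      obtain ⟨a1, a2⟩ := hbase n hn.1
      exact ⟨a1, a2, hn.2⟩)
    have eS := HS x hx
    have hxl : 0 ≤ (x : ℝ) / Real.log x := by positivity
    -- x/(log x)^(5/4) ≤ 2 x/log x
    have hl34 : (x : ℝ) / Real.log x ^ (5 / 4 : ℝ) ≤ 2 * (x / Real.log x) := by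
      have h1 : Real.log x / 2 ≤ Real.log x ^ (5 / 4 : ℝ) := by
        have h2 : Real.log x ^ (5 / 4 : ℝ) = Real.log x * Real.log x ^ (1 / 4 : ℝ) := by
          rw [show (5 / 4 : ℝ) = 1 + 1 / 4 by norm_num, Real.rpow_add hlx, Real.rpow_one]
        have h3 : (1 / 2 : ℝ) ≤ Real.log x ^ (1 / 4 : ℝ) := by
          have h4 : (1 / 16 : ℝ) ≤ Real.log x := by
            have h5 : Real.log 2 ≤ Real.log x := Real.log_le_log (by norm_num) (by exact_mod_cast hx)
            have := Real.log_two_gt_d9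
            linarith
          calc (1 / 2 : ℝ) = (1 / 16 : ℝ) ^ (1 / 4 : ℝ) := by
                rw [show (1 / 16 : ℝ) = (1 / 2) ^ (4 : ℝ) by norm_num, ← Real.rpow_mul (by norm_num)]
                norm_num
            _ ≤ Real.log x ^ (1 / 4 : ℝ) := Real.rpow_le_rpow (by norm_num) h4 (by norm_num)
        rw [h2]
        nlinarith
      rw [← mul_div_assoc, div_le_div_iff₀ (by positivity) hlx]
      nlinarith
    have eS' : (GS.card : ℝ) ≤ 2 * CS * (x / Real.log x) := by
      refine eS.trans ?_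
      calc CS * x / Real.log x ^ (5 / 4 : ℝ) = CS * (x / Real.log x ^ (5 / 4 : ℝ)) := by ring
        _ ≤ CS * (2 * (x / Real.log x)) := mul_le_mul_of_nonneg_left hl34 hCS.le
        _ = _ := by ring
    have e56 : (G5.card : ℝ) + G6.card ≤ (K5 + K6) * (2 * T) * (x / Real.log x) := by
      calc (G5.card : ℝ) + G6.card ≤ (K5 + K6) * x * Real.exp (-ll y) := by linarith
        _ ≤ (K5 + K6) * x * (2 * T / Real.log x) := mul_le_mul_of_nonneg_left hexp (by positivity)
        _ = _ := by ring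
    have hyl : (y : ℝ) ≤ 2 * (x / Real.log x) := by
      have h1 : (y : ℝ) ≤ Real.sqrt x := by
        have h2 : ((y : ℝ)) ^ 2 ≤ x := by exact_mod_cast hpow 2 (by omega)
        calc (y : ℝ) = Real.sqrt ((y : ℝ) ^ 2) := (Real.sqrt_sq (by positivity)).symm
          _ ≤ Real.sqrt x := Real.sqrt_le_sqrt h2
      have h2 : Real.log x ≤ 2 * Real.sqrt x := by
        have h3 : Real.log (Real.sqrt x) ≤ Real.sqrt x - 1 :=
          Real.log_le_sub_one_of_pos (Real.sqrt_pos.2 hx0)
        rw [Real.log_sqrt hx0.le] at h3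
        linarith
      have h4 : Real.sqrt x * Real.log x ≤ 2 * x := by
        have h5 := Real.mul_self_sqrt hx0.le
        have h6 : 0 ≤ Real.sqrt x := Real.sqrt_nonneg _
        nlinarith
      calc (y : ℝ) ≤ Real.sqrt x := h1
        _ ≤ 2 * (x / Real.log x) := by
          rw [← mul_div_assoc, le_div_iff₀ hlx]
          exact h4
    calc (G.card : ℝ) ≤ _ := hc'
      _ ≤ 2 * CS * (x / Real.log x) + ((K5 + K6) * (2 * T) * (x / Real.log x)
          + 2 * (x / Real.log x)) := by linarith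
      _ ≤ K * (x / Real.log x) := by
          rw [hK]
          have : 0 ≤ (T : ℝ) * (x / Real.log x) := by positivity
          linarith
      _ = K * x / Real.log x := by ring

end Pool.Agent.H37.PPD
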